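import Mathlib
import Pool.Agent.LGO.CK.Form

/-!
# LGO/SN: lower bound of the number of singular moduli of discriminant `-D` (MP_d83ecd_ag): definitions

Input: Siegel's theorem for real characters in the form `Siegel` (folder `LGO/SG`).  Result (`SN/Main.lean`):
`cls D` (all `j(τ)`, `τ` with a primitive form of discriminant `-D`) has at least `c D ^ (1/4)` elements, for every
discriminant `-D` (not only fundamental ones).  No class number formula is used: `g D n` counts the pairs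
`(m, β)`, `m ^ 2 ∣ n`, `β` modulo `n / m ^ 2` with `β ^ 2 ≡ -D`; for `n` prime to `2 D` it is at least
`r D n = ∑ d ∣ n, chi D d` (`SN/RG.lean`), and `∑ n ≤ x, (n, 2 D) = 1, g D n ≤ #(cls D) * 16 x / √D` for `x ≥ D`
(`SN/Rep.lean`) while `∑ n ≤ x, (n, q) = 1, r D n` is about `φ(q) / q * x * L(1, chi D)`, `q = 4 D` (`SN/Hyp.lean`).
-/

namespace Pool.Agent.LGO.SN

open UpperHalfPlane Pool.Agent.Hhelper14.ZP Pool.Agent.LGO.CK

/-- `f` is a nonprincipal real character modulo `q` (primitive or not) -/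
structure RC (q : ℕ) (f : ℕ → ℤ) : Prop where
  qpos : 0 < q
  one : f 1 = 1
  mul : ∀ m n, f (m * n) = f m * f n
  per : ∀ n, f (n + q) = f n
  zero : ∀ n, ¬ n.Coprime q → f n = 0
  val : ∀ n, n.Coprime q → f n = 1 ∨ f n = -1
  neg : ∃ n, f n = -1

/-- Siegel's theorem -/
def Siegel : Prop := ∀ ε : ℝ, 0 < ε → ∃ c : ℝ, 0 < c ∧ ∀ (q : ℕ) (f : ℕ → ℤ), RC q f →
  ∀ N : ℕ, q ^ 2 ≤ N → c * (q : ℝ) ^ (-ε) ≤ ∑ n ∈ Finset.Icc 1 N, (f n : ℝ) / n

/-- the character `n ↦ (-D / n)` for odd `n`, and `0` for even `n`; its period is `4 D` -/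
def chi (D n : ℕ) : ℤ := if Odd n then jacobiSym (-(D : ℤ)) n else 0

/-- the residues `β` modulo `n` with `β ^ 2 ≡ -D` -/
def rts (D n : ℕ) : Finset ℕ := (Finset.range n).filter (fun β => n ∣ β ^ 2 + D)

/-- the number of pairs `(m, β)`, `m ^ 2 ∣ n`, `β` modulo `n / m ^ 2` with `β ^ 2 ≡ -D` -/
def g (D n : ℕ) : ℕ := ∑ m ∈ (Finset.Icc 1 n).filter (fun m => m ^ 2 ∣ n), (rts D (n / m ^ 2)).card

/-- `1 * chi D` -/
def r (D n : ℕ) : ℤ := ∑ d ∈ n.divisors, chi D d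

/-- the singular moduli of discriminant `-D` -/
def cls (D : ℕ) : Set ℂ := {x : ℂ | ∃ (τ : ℍ) (a b c : ℤ), HasForm τ a b c ∧
    b ^ 2 - 4 * a * c = -(D : ℤ) ∧ x = jInv τ}

end Pool.Agent.LGO.SN
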