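import Mathlib
import Pool.Agent.LGO.SN.Defs

/-!
# LGO/SN: the character `chi D`

`chi_rc`: `per`: `n + 4 D` is odd iff `n` is odd, and `jacobiSym.mod_right` (the period of `J(a | ·)` on odd numbers is
`4 * a.natAbs`).  `mul`: a product is odd iff both factors are; `jacobiSym.mul_right`.  `zero`, `val`: `n` is prime to
`4 D` iff it is odd and prime to `D`; `jacobiSym` vanishes exactly when the gcd is not `1` (`jacobiSym.ne_zero_iff_not_coprime`,
`jacobiSym.eq_one_or_neg_one`).  `neg`: `n = 4 D - 1`: `J(-1 | n) = -1` because `n ≡ 3 mod 4`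
(`jacobiSym.at_neg_one`, `ZMod.χ₄_nat_three_mod_four`), and `J(D | n) = J(4 | n) J(D | n) = J(4 D | n) = J(1 | n) = 1`
(`4 D ≡ 1 mod n`, `4 = 2 ^ 2`; `jacobiSym.mod_left`).
-/

namespace Pool.Agent.LGO.SN

private theorem Chi_gcd (D n : ℕ) : (-(D : ℤ)).gcd (n : ℤ) = D.gcd n := by
  rw [Int.gcd_eq_natAbs, Int.natAbs_neg, Int.natAbs_natCast, Int.natAbs_natCast]

theorem chi_rc {D : ℕ} (hD : 0 < D) : RC (4 * D) (chi D) where
  qpos := by omega
  one := by
    rw [chi, if_pos odd_one, jacobiSym.one_right]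
  mul := by
    intro m n
    by_cases hm : Odd m
    · by_cases hn : Odd n
      · rw [chi, chi, chi, if_pos hm, if_pos hn, if_pos (hm.mul hn)]
        exact jacobiSym.mul_right' _ hm.pos.ne' hn.pos.ne'
      · have e : chi D n = 0 := if_neg hn
        rw [e, mul_zero]
        exact if_neg fun h => hn (Nat.odd_mul.1 h).2
    · have e : chi D m = 0 := if_neg hm
      rw [e, zero_mul]
      exact if_neg fun h => hm (Nat.odd_mul.1 h).1
  per := by
    intro n
    by_cases hn : Odd n
    · have hn' : Odd (n + 4 * D) := hn.add_even ⟨2 * D, by ring⟩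
      rw [chi, chi, if_pos hn, if_pos hn', jacobiSym.mod_right _ hn', jacobiSym.mod_right _ hn,
        Int.natAbs_neg, Int.natAbs_natCast, Nat.add_mod_right]
    · have hn' : ¬ Odd (n + 4 * D) := by
        rw [Nat.not_odd_iff_even] at hn ⊢
        exact hn.add ⟨2 * D, by ring⟩
      rw [chi, chi, if_neg hn, if_neg hn']
  zero := by
    intro n hn
    by_cases ho : Odd n
    · rw [chi, if_pos ho, jacobiSym.eq_zero_iff]
      refine ⟨ho.pos.ne', fun h => hn ?_⟩
      rw [Chi_gcd] at h
      have h4 : n.Coprime 4 := by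
        have : n.Coprime (2 ^ 2) := Nat.Coprime.pow_right 2 ho.coprime_two_right
        exact this
      exact Nat.Coprime.mul_right h4 (Nat.Coprime.symm h)
    · rw [chi, if_neg ho]
  val := by
    intro n hn
    have h1 : n.Coprime D := Nat.Coprime.coprime_mul_left_right hn
    have h2 : n.Coprime 4 := Nat.Coprime.coprime_mul_right_right hn
    have ho : Odd n := by
      by_contra he
      rw [Nat.not_odd_iff_even] at he
      have h3 : 2 ∣ Nat.gcd n 4 := Nat.dvd_gcd he.two_dvd (by norm_num)
      rw [h2] at h3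
      omega
    rw [chi, if_pos ho]
    apply jacobiSym.eq_one_or_neg_one
    rw [Chi_gcd]
    exact h1.symm
  neg := by
    refine ⟨4 * D - 1, ?_⟩
    set n := 4 * D - 1 with hn
    have hn3 : n % 4 = 3 := by omega
    have ho : Odd n := by
      rw [Nat.odd_iff]
      omega
    have h4D : (4 * (D : ℤ)) = (n : ℤ) + 1 := by
      have : 4 * D = n + 1 := by omega
      exact_mod_cast this
    rw [chi, if_pos ho]
    have e1 : -(D : ℤ) = (-1) * (D : ℤ) := by ring
    have e2 : jacobiSym (-1) n = -1 := by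
      rw [jacobiSym.at_neg_one ho, ZMod.χ₄_nat_three_mod_four hn3]
    have e3 : jacobiSym (4 * (D : ℤ)) n = 1 := by
      rw [h4D, jacobiSym.mod_left, Int.add_emod_left, ← jacobiSym.mod_left, jacobiSym.one_left]
    have e4 : jacobiSym 4 n = 1 := by
      have h : jacobiSym ((2 : ℤ) ^ 2) n = 1 := by
        apply jacobiSym.sq_one'
        have h2 : Nat.Coprime 2 n := ho.coprime_two_left
        rw [Int.gcd_eq_natAbs, Int.natAbs_natCast]
        exact h2
      exact h
    rw [jacobiSym.mul_left, e4, one_mul] at e3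
    rw [e1, jacobiSym.mul_left, e2, e3, mul_one]

end Pool.Agent.LGO.SN
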