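import Mathlib
import Pool.Agent.LGO.SN.Defs

/-!
# LGO/SN: square roots of `-D` modulo prime powers

`p` an odd prime, `p ∤ D`.  `rts_two_le`: if `chi D p = 1` (`jacobiSym` at a prime is `legendreSym`,
`legendreSym.eq_one_iff`) there is `β` with `β ^ 2 ≡ -D mod p`, `p ∤ β`, and by Hensel's lemma (induction on `k`: if
`β ^ 2 + D = p ^ k t`, choose `s` with `2 β s ≡ -t mod p`, then `(β + p ^ k s) ^ 2 + D ≡ 0 mod p ^ (k + 1)`) a root modulo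
`p ^ k` for every `k`; `β` and `-β` are different modulo `p ^ k` (`2 β` is prime to `p`), so there are at least two
elements in `rts D (p ^ k)`, `k ≥ 1`.
`rts_one`: `rts D 1 = {0}`, so the cardinality is `1`.
-/

namespace Pool.Agent.LGO.SN

theorem rts_one (D : ℕ) : (rts D 1).card = 1 := by
  simp [rts]

private lemma Hen_mem {D n : ℕ} (hn : 0 < n) {γ : ℤ} (h : (n : ℤ) ∣ γ ^ 2 + D) :
    (γ % n).toNat ∈ rts D n := by
  have hn' : (0 : ℤ) < n := by exact_mod_cast hn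
  have h0 : 0 ≤ γ % n := Int.emod_nonneg _ hn'.ne'
  have h1 : γ % n < n := Int.emod_lt_of_pos _ hn'
  unfold rts
  rw [Finset.mem_filter, Finset.mem_range]
  refine ⟨by omega, ?_⟩
  rw [← Int.natCast_dvd_natCast]
  push_cast
  rw [Int.toNat_of_nonneg h0]
  have h2 : (n : ℤ) ∣ γ % n - γ := by
    have := Int.emod_add_mul_ediv γ n
    exact ⟨-(γ / n), by linarith⟩
  have h3 : (γ % n) ^ 2 + D = (γ % n - γ) * (γ % n + γ) + (γ ^ 2 + D) := by ring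
  rw [h3]
  exact dvd_add (h2.mul_right _) h

theorem rts_two_le {D p : ℕ} (hp : p.Prime) (hp2 : p ≠ 2) (hpD : ¬ p ∣ D) (hc : chi D p = 1) {k : ℕ} (hk : 1 ≤ k) :
    2 ≤ (rts D (p ^ k)).card := by
  have : Fact p.Prime := ⟨hp⟩
  have hpZ : Prime (p : ℤ) := Nat.prime_iff_prime_int.1 hp
  have hD : ¬ (p : ℤ) ∣ D := fun h => hpD (Int.natCast_dvd_natCast.1 h)
  have h2 : ¬ (p : ℤ) ∣ 2 := by
    intro h
    have h3 : p ∣ 2 := by exact_mod_cast h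
    exact hp2 ((Nat.prime_dvd_prime_iff_eq hp Nat.prime_two).1 h3)
  have hbase : ∃ β : ℤ, (p : ℤ) ∣ β ^ 2 + D := by
    unfold chi at hc
    rw [if_pos (hp.odd_of_ne_two hp2), ← jacobiSym.legendreSym.to_jacobiSym] at hc
    have h3 : ((-(D : ℤ) : ℤ) : ZMod p) ≠ 0 := by
      intro h
      rw [ZMod.intCast_zmod_eq_zero_iff_dvd] at h
      exact hD ((dvd_neg).1 h)
    rw [legendreSym.eq_one_iff p h3] at hc
    obtain ⟨c, hc⟩ := hc
    obtain ⟨β, rfl⟩ := ZMod.intCast_surjective c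
    refine ⟨β, ?_⟩
    rw [← ZMod.intCast_zmod_eq_zero_iff_dvd]
    push_cast at hc ⊢
    rw [sq, ← hc]
    ring
  have hnd : ∀ β : ℤ, (p : ℤ) ∣ β ^ 2 + D → ¬ (p : ℤ) ∣ β := by
    intro β h h'
    exact hD ((dvd_add_right (dvd_pow h' two_ne_zero)).1 h)
  have hen : ∀ k : ℕ, ∃ β : ℤ, (p : ℤ) ^ (k + 1) ∣ β ^ 2 + D := by
    intro k
    induction k with
    | zero =>
      obtain ⟨β, h⟩ := hbase
      exact ⟨β, by rwa [zero_add, pow_one]⟩
    | succ k ih =>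
      obtain ⟨β, t, ht⟩ := ih
      have h3 : ¬ (p : ℤ) ∣ 2 * β := by
        intro h
        rcases hpZ.dvd_or_dvd h with h | h
        · exact h2 h
        · exact hnd β (ht ▸ (dvd_pow_self _ (Nat.succ_ne_zero k)).mul_right t) h
      have h4 : IsCoprime (p : ℤ) (2 * β) := (Irreducible.coprime_iff_not_dvd hpZ.irreducible).2 h3
      obtain ⟨x, y, hxy⟩ := h4
      refine ⟨β + (p : ℤ) ^ (k + 1) * (-t * y), t * x + (p : ℤ) ^ k * (t * y) ^ 2, ?_⟩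
      have h5 : (2 * β) * y = 1 - x * p := by linarith
      calc (β + (p : ℤ) ^ (k + 1) * (-t * y)) ^ 2 + D =
          (β ^ 2 + D) - (p : ℤ) ^ (k + 1) * t * ((2 * β) * y) + (p : ℤ) ^ (k + 1) * (p : ℤ) ^ (k + 1) * (t * y) ^ 2 := by
            ring
        _ = (p : ℤ) ^ (k + 1 + 1) * (t * x + (p : ℤ) ^ k * (t * y) ^ 2) := by
            rw [ht, h5]
            ring
  obtain ⟨k', rfl⟩ : ∃ k', k = k' + 1 := ⟨k - 1, by omega⟩
  obtain ⟨β, hβ⟩ := hen k'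
  have hpos : 0 < p ^ (k' + 1) := pow_pos hp.pos _
  have hβ' : ((p ^ (k' + 1) : ℕ) : ℤ) ∣ β ^ 2 + D := by
    push_cast
    exact hβ
  have hβ2 : ((p ^ (k' + 1) : ℕ) : ℤ) ∣ (-β) ^ 2 + D := by
    rw [neg_sq]
    exact hβ'
  refine Finset.one_lt_card.2 ⟨_, Hen_mem hpos hβ', _, Hen_mem hpos hβ2, fun h => ?_⟩
  have hn' : (0 : ℤ) < ((p ^ (k' + 1) : ℕ) : ℤ) := by exact_mod_cast hpos
  have h0 : 0 ≤ β % ((p ^ (k' + 1) : ℕ) : ℤ) := Int.emod_nonneg _ hn'.ne'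
  have h1 : 0 ≤ (-β) % ((p ^ (k' + 1) : ℕ) : ℤ) := Int.emod_nonneg _ hn'.ne'
  have h3 : β % ((p ^ (k' + 1) : ℕ) : ℤ) = (-β) % ((p ^ (k' + 1) : ℕ) : ℤ) := by omega
  have h4 : ((p ^ (k' + 1) : ℕ) : ℤ) ∣ 2 * β := by
    have h5 := Int.ModEq.dvd (show (-β) ≡ β [ZMOD ((p ^ (k' + 1) : ℕ) : ℤ)] from h3.symm)
    have h6 : β - -β = 2 * β := by ring
    rwa [h6] at h5
  have h5 : (p : ℤ) ∣ ((p ^ (k' + 1) : ℕ) : ℤ) := by
    push_cast
    exact dvd_pow_self _ (Nat.succ_ne_zero k')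
  rcases hpZ.dvd_or_dvd (h5.trans h4) with h | h
  · exact h2 h
  · exact hnd β (h5.trans hβ') h

end Pool.Agent.LGO.SN
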