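import Mathlib
import Pool.Agent.LGO.SN.Defs

/-!
# LGO/SN: the sums over intervals of a nonprincipal real character are bounded by `q`

`sum_period`: `∑ n < q, f n = 0`: let `f a = -1`; then `a` is prime to `q` (`zero`), and multiplication by `a` permutes the
residues modulo `q` (`ZMod q`, or `Finset.sum_nbij` with `n ↦ a * n % q`), `f (a n) = - f n`, so the sum is equal to its
negative.  (`f` is a function of the residue: `per` and induction, `Function.Periodic.map_mod_nat`.)
`sum_Ico`: the interval `[a, b)` is a union of full periods and of an interval of length `< q`; every full period has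
sum `0` (`Function.Periodic`, shift of `sum_period`), and `|f n| ≤ 1`.
-/

namespace Pool.Agent.LGO.SN

variable {q : ℕ} {f : ℕ → ℤ}

theorem RC.abs_le (h : RC q f) (n : ℕ) : |f n| ≤ 1 := by
  by_cases hn : n.Coprime q
  · rcases h.val n hn with e | e <;> simp [e]
  · simp [h.zero n hn]

private theorem Per_mod (h : RC q f) (n : ℕ) : f (n % q) = f n := by
  have hp : Function.Periodic f q := h.per
  exact hp.map_mod_nat n

theorem RC.sum_period (h : RC q f) : ∑ n ∈ Finset.range q, f n = 0 := by
  obtain ⟨a, ha⟩ := h.neg
  have hq := h.qpos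
  have hco : a.Coprime q := by
    by_contra hc
    rw [h.zero a hc] at ha
    omega
  have hinj : Set.InjOn (fun n => a * n % q) (Finset.range q : Set ℕ) := by
    intro n hn m hm hnm
    rw [Finset.coe_range, Set.mem_Iio] at hn hm
    have h1 : a * n ≡ a * m [MOD q] := hnm
    have h2 : n ≡ m [MOD q] := Nat.ModEq.cancel_left_of_coprime hco.symm h1
    exact Nat.ModEq.eq_of_lt_of_lt h2 hn hm
  have himg : (Finset.range q).image (fun n => a * n % q) = Finset.range q := by
    apply Finset.eq_of_subset_of_card_le
    · intro m hm
      obtain ⟨n, -, rfl⟩ := Finset.mem_image.1 hm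
      exact Finset.mem_range.2 (Nat.mod_lt _ hq)
    · rw [Finset.card_image_of_injOn hinj]
  have h1 : ∑ n ∈ Finset.range q, f n = ∑ n ∈ Finset.range q, f (a * n % q) := by
    conv_lhs => rw [← himg]
    exact Finset.sum_image hinj
  have h2 : ∑ n ∈ Finset.range q, f (a * n % q) = - ∑ n ∈ Finset.range q, f n := by
    rw [← Finset.sum_neg_distrib]
    refine Finset.sum_congr rfl fun n _ => ?_
    rw [Per_mod h, h.mul, ha]
    ring
  rw [h2] at h1
  omega

private theorem Per_full (h : RC q f) (a : ℕ) : ∑ n ∈ Finset.Ico a (a + q), f n = 0 := by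
  induction a with
  | zero =>
    rw [zero_add, ← Finset.range_eq_Ico]
    exact h.sum_period
  | succ a ih =>
    have hq := h.qpos
    have h1 := Finset.sum_Ico_succ_top (f := f) (show a ≤ a + q by omega)
    have h2 := Finset.sum_eq_sum_Ico_succ_bot (f := f) (show a < a + q + 1 by omega)
    have h3 := h.per a
    have h4 : a + 1 + q = a + q + 1 := by omega
    rw [h4]
    rw [h1, ih, h3] at h2
    linarith

theorem RC.sum_Ico (h : RC q f) (a b : ℕ) : |∑ n ∈ Finset.Ico a b, f n| ≤ q := by
  have hq := h.qpos
  have key : ∀ k a b : ℕ, b ≤ a + k → |∑ n ∈ Finset.Ico a b, f n| ≤ q := by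
    intro k
    induction k using Nat.strong_induction_on with
    | _ k ih =>
      intro a b hb
      by_cases hlt : b ≤ a + q
      · refine (Finset.abs_sum_le_sum_abs _ _).trans ?_
        refine (Finset.sum_le_card_nsmul _ _ 1 fun n _ => h.abs_le n).trans ?_
        rw [Nat.card_Ico, nsmul_eq_mul, mul_one]
        have : b - a ≤ q := by omega
        exact_mod_cast this
      · have h1 := Finset.sum_Ico_consecutive f (show a ≤ a + q by omega)
          (show a + q ≤ b by omega)
        rw [← h1, Per_full h, zero_add]
        exact ih (k - q) (by omega) (a + q) b (by omega)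
  exact key b a b (by omega)

end Pool.Agent.LGO.SN
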