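import Mathlib

/-!
# LGO/SN: `φ(q) / q ≥ 1 / (1 + log₂ q)`, and the number of integers prime to `q` in an interval

`prod_ge`: for a finite set `s` of natural numbers `≥ 2`: `∏ p ∈ s, (1 - 1/p) ≥ 1 / (#s + 1)`: induction on the maximum
(`Finset.induction_on_max`): if all elements of `s` are smaller than `p` then `#s + 1 ≤ p - 1` (`s ⊆ [2, p)`), so
`1 - 1/p ≥ 1 - 1/(#s + 2) = (#s + 1)/(#s + 2)`.
`tot_ge`: `Nat.totient_eq_mul_prod_factors`, and `2 ^ #(primeFactors q) ≤ ∏ p ∈ primeFactors q, p ≤ q`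
(`Finset.pow_card_le_prod`, `Nat.prod_primeFactors_dvd`), so `#(primeFactors q) ≤ log₂ q` (`Nat.le_log_of_pow_le`...).
`count_ge`, `count_le`: every interval of `q` consecutive integers contains `φ(q)` integers prime to `q`
(`Nat.filter_coprime_Ico_eq_totient`), so the count for `[1, y]` is `φ(q) * (y / q)` plus the count for an interval of length
`< q`.
-/

namespace Pool.Agent.LGO.SN

theorem prod_ge (s : Finset ℕ) (hs : ∀ p ∈ s, 2 ≤ p) :
    1 / ((s.card : ℝ) + 1) ≤ ∏ p ∈ s, (1 - 1 / (p : ℝ)) := by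
  induction s using Finset.induction_on_max with
  | empty => simp
  | insert a s ha ih =>
    have hna : a ∉ s := fun h => lt_irrefl _ (ha a h)
    have ih' := ih fun p hp => hs p (Finset.mem_insert_of_mem hp)
    have ha2 : 2 ≤ a := hs a (Finset.mem_insert_self _ _)
    have hc : s.card + 2 ≤ a := by
      have h1 : s ⊆ Finset.Ico 2 a := fun p hp =>
        Finset.mem_Ico.2 ⟨hs p (Finset.mem_insert_of_mem hp), ha p hp⟩
      have h2 := Finset.card_le_card h1
      rw [Nat.card_Ico] at h2
      omega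
    rw [Finset.card_insert_of_notMem hna, Finset.prod_insert hna]
    have hc' : (s.card : ℝ) + 2 ≤ a := by exact_mod_cast hc
    have hpos : (0 : ℝ) ≤ s.card := Nat.cast_nonneg _
    have h1 : ((s.card : ℝ) + 1) / (s.card + 2) ≤ 1 - 1 / (a : ℝ) := by
      have h2 : (1 : ℝ) / a ≤ 1 / (s.card + 2) :=
        one_div_le_one_div_of_le (by linarith) hc'
      have h3 : ((s.card : ℝ) + 1) / (s.card + 2) = 1 - 1 / (s.card + 2) := by
        field_simp
        ring
      rw [h3]
      linarith
    have h4 : (1 : ℝ) / (((s.card + 1 : ℕ) : ℝ) + 1) =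
        ((s.card : ℝ) + 1) / (s.card + 2) * (1 / ((s.card : ℝ) + 1)) := by
      push_cast
      field_simp
      ring
    rw [h4]
    refine mul_le_mul h1 ih' (by positivity) ?_
    exact le_trans (by positivity) h1

theorem tot_ge {q : ℕ} (hq : 0 < q) : (q : ℝ) ≤ q.totient * (1 + Nat.log 2 q) := by
  have h1 : (q.totient : ℝ) = q * ∏ p ∈ q.primeFactors, (1 - 1 / (p : ℝ)) := by
    have h := Nat.totient_eq_mul_prod_factors q
    have h2 := congrArg (fun x : ℚ => (x : ℝ)) h
    push_cast at h2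
    rw [h2]
    simp only [one_div]
  have h2 : q.primeFactors.card ≤ Nat.log 2 q := by
    refine Nat.le_log_of_pow_le one_lt_two ?_
    calc 2 ^ q.primeFactors.card ≤ ∏ p ∈ q.primeFactors, p :=
          Finset.pow_card_le_prod _ _ _ fun p hp => (Nat.prime_of_mem_primeFactors hp).two_le
      _ ≤ q := Nat.le_of_dvd hq (Nat.prod_primeFactors_dvd q)
  have h3 := prod_ge q.primeFactors fun p hp => (Nat.prime_of_mem_primeFactors hp).two_le
  have h4 : (q.primeFactors.card : ℝ) ≤ Nat.log 2 q := by exact_mod_cast h2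
  have h5 : (0 : ℝ) ≤ q.primeFactors.card := Nat.cast_nonneg _
  have h6 : (0 : ℝ) < q := by exact_mod_cast hq
  have h7 : (q : ℝ) ≤ q.totient * (1 + q.primeFactors.card) := by
    rw [h1]
    have h8 : (1 : ℝ) ≤ (∏ p ∈ q.primeFactors, (1 - 1 / (p : ℝ))) * (1 + q.primeFactors.card) := by
      rw [div_le_iff₀ (by positivity)] at h3
      linarith
    calc (q : ℝ) = q * 1 := (mul_one _).symm
      _ ≤ q * ((∏ p ∈ q.primeFactors, (1 - 1 / (p : ℝ))) * (1 + q.primeFactors.card)) :=
          mul_le_mul_of_nonneg_left h8 h6.le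
      _ = _ := by ring
  refine h7.trans (mul_le_mul_of_nonneg_left (by linarith) (Nat.cast_nonneg _))

private theorem tot_blocks (q k : ℕ) :
    ((Finset.Ico 1 (1 + q * k)).filter (fun n => n.Coprime q)).card = q.totient * k := by
  induction k with
  | zero => simp
  | succ k ih =>
    have h1 : Finset.Ico 1 (1 + q * (k + 1)) =
        Finset.Ico 1 (1 + q * k) ∪ Finset.Ico (1 + q * k) (1 + q * k + q) := by
      rw [Finset.Ico_union_Ico_eq_Ico (by omega) (by omega)]
      congr 1
      ring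
    have h2 : Disjoint (Finset.Ico 1 (1 + q * k)) (Finset.Ico (1 + q * k) (1 + q * k + q)) :=
      Finset.Ico_disjoint_Ico_consecutive _ _ _
    rw [h1, Finset.filter_union, Finset.card_union_of_disjoint (Finset.disjoint_filter_filter h2),
      ih]
    have h3 := Nat.filter_coprime_Ico_eq_totient q (1 + q * k)
    have h4 : (Finset.Ico (1 + q * k) (1 + q * k + q)).filter (fun n => n.Coprime q) =
        (Finset.Ico (1 + q * k) (1 + q * k + q)).filter (fun n => q.Coprime n) := by
      refine Finset.filter_congr fun x _ => ?_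
      exact Nat.coprime_comm
    rw [h4, h3]
    ring

theorem count_abs {q : ℕ} (hq : 0 < q) (y : ℕ) :
    |(((Finset.Icc 1 y).filter (fun n => n.Coprime q)).card : ℝ) - (q.totient : ℝ) / q * y| ≤ q := by
  obtain ⟨k, r, hr, hy⟩ : ∃ k r : ℕ, r < q ∧ y = q * k + r :=
    ⟨y / q, y % q, Nat.mod_lt _ hq, (Nat.div_add_mod y q).symm⟩
  subst hy
  have h1 : Finset.Icc 1 (q * k + r) =
      Finset.Ico 1 (1 + q * k) ∪ Finset.Ico (1 + q * k) (1 + q * k + r) := by
    rw [Finset.Ico_union_Ico_eq_Ico (by omega) (by omega)]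
    ext x
    simp only [Finset.mem_Icc, Finset.mem_Ico]
    omega
  have h2 : Disjoint (Finset.Ico 1 (1 + q * k)) (Finset.Ico (1 + q * k) (1 + q * k + r)) :=
    Finset.Ico_disjoint_Ico_consecutive _ _ _
  rw [h1, Finset.filter_union, Finset.card_union_of_disjoint (Finset.disjoint_filter_filter h2),
    tot_blocks]
  have h3 : ((Finset.Ico (1 + q * k) (1 + q * k + r)).filter (fun n => n.Coprime q)).card ≤ r := by
    refine (Finset.card_filter_le _ _).trans ?_
    rw [Nat.card_Ico]
    omega
  set e := ((Finset.Ico (1 + q * k) (1 + q * k + r)).filter (fun n => n.Coprime q)).card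
  have hq' : (0 : ℝ) < q := by exact_mod_cast hq
  have h4 : (e : ℝ) ≤ r := by exact_mod_cast h3
  have h5 : (r : ℝ) ≤ q := by exact_mod_cast hr.le
  have h6 : (q.totient : ℝ) ≤ q := by exact_mod_cast Nat.totient_le q
  have h7 : ((q.totient * k + e : ℕ) : ℝ) - (q.totient : ℝ) / q * ((q * k + r : ℕ) : ℝ) =
      e - (q.totient : ℝ) / q * r := by
    push_cast
    field_simp
    ring
  rw [h7]
  have h8 : (0 : ℝ) ≤ (q.totient : ℝ) / q * r := by positivity
  have h9 : (q.totient : ℝ) / q * r ≤ r := by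
    have h10 : (q.totient : ℝ) / q ≤ 1 := by
      rw [div_le_one hq']
      exact h6
    calc (q.totient : ℝ) / q * r ≤ 1 * r := mul_le_mul_of_nonneg_right h10 (Nat.cast_nonneg _)
      _ = r := one_mul _
  have h11 : (0 : ℝ) ≤ e := Nat.cast_nonneg _
  rw [abs_le]
  constructor <;> linarith

end Pool.Agent.LGO.SN
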