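import Mathlib
import Pool.Agent.LGO.SN.Per
import Pool.Agent.LGO.SN.Tot

/-!
# LGO/SN: the hyperbola method

`∑ n ≤ y², (n, q) = 1, ∑ d ∣ n, f d = ∑ over pairs (d, e), d e ≤ y², (d, q) = (e, q) = 1, of f d`
`= ∑ d ≤ y, f d * #{e ≤ y² / d : (e, q) = 1} + ∑ e ≤ y, (e, q) = 1, ∑ y < d ≤ y² / e, f d`
(if `d e ≤ y²` and `d > y` then `e < y`, and `e ≤ y² / y = y`).
First sum: `#{e ≤ y² / d : (e, q) = 1} = φ(q) / q * ⌊y² / d⌋ + O(q) = φ(q) / q * y² / d + O(q + 1)` (`count_abs`), so it is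
`φ(q) / q * y² * ∑ d ≤ y, f d / d + O((q + 1) y)`.  Second sum: at most `y` values of `e`, the inner sum is at most `q`
in absolute value (`RC.sum_Ico`).  Total error at most `(2 q + 1) y ≤ 3 q y`.
-/

namespace Pool.Agent.LGO.SN

variable {q : ℕ} {f : ℕ → ℤ}

/-- the sum over pairs -/
private theorem Hyp_pairs (h : RC q f) (N : ℕ) :
    ∑ n ∈ (Finset.Icc 1 N).filter (fun n => n.Coprime q), ∑ d ∈ n.divisors, f d =
      ∑ d ∈ Finset.Icc 1 N, ∑ _e ∈ (Finset.Icc 1 (N / d)).filter (fun e => e.Coprime q), f d := by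
  have h1 : ∑ d ∈ Finset.Icc 1 N, ∑ _e ∈ (Finset.Icc 1 (N / d)).filter (fun e => e.Coprime q), f d =
      ∑ d ∈ (Finset.Icc 1 N).filter (fun d => d.Coprime q),
        ∑ _e ∈ (Finset.Icc 1 (N / d)).filter (fun e => e.Coprime q), f d := by
    symm
    refine Finset.sum_filter_of_ne fun d _ hne => ?_
    by_contra hd
    apply hne
    refine Finset.sum_eq_zero fun e _ => h.zero d hd
  rw [h1, Finset.sum_sigma', Finset.sum_sigma']
  refine Finset.sum_nbij' (fun x => ⟨x.2, x.1 / x.2⟩) (fun x => ⟨x.1 * x.2, x.1⟩) ?_ ?_ ?_ ?_ ?_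
  · rintro ⟨n, d⟩ hx
    simp only [Finset.mem_sigma, Finset.mem_filter, Finset.mem_Icc, Nat.mem_divisors] at hx ⊢
    obtain ⟨⟨⟨hn1, hnN⟩, hcop⟩, ⟨e, rfl⟩, hn0⟩ := hx
    have hd : 0 < d := Nat.pos_of_ne_zero fun h0 => hn0 (by rw [h0, zero_mul])
    have he : 0 < e := Nat.pos_of_ne_zero fun h0 => hn0 (by rw [h0, mul_zero])
    rw [Nat.mul_div_cancel_left _ hd]
    refine ⟨⟨⟨hd, ?_⟩, hcop.coprime_mul_right⟩, ⟨he, ?_⟩, hcop.coprime_mul_left⟩
    · exact (Nat.le_mul_of_pos_right d he).trans hnN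
    · rw [Nat.le_div_iff_mul_le hd, mul_comm]
      exact hnN
  · rintro ⟨d, e⟩ hx
    simp only [Finset.mem_sigma, Finset.mem_filter, Finset.mem_Icc, Nat.mem_divisors] at hx ⊢
    obtain ⟨⟨⟨hd1, hdN⟩, hcd⟩, ⟨he1, heN⟩, hce⟩ := hx
    rw [Nat.le_div_iff_mul_le hd1, mul_comm] at heN
    refine ⟨⟨⟨Nat.mul_pos hd1 he1, heN⟩, Nat.Coprime.mul_left hcd hce⟩, Dvd.intro _ rfl, ?_⟩
    exact (Nat.mul_pos hd1 he1).ne'
  · rintro ⟨n, d⟩ hx
    simp only [Finset.mem_sigma, Finset.mem_filter, Finset.mem_Icc, Nat.mem_divisors] at hx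
    obtain ⟨⟨⟨hn1, hnN⟩, hcop⟩, hdvd, hn0⟩ := hx
    simp only [Nat.mul_div_cancel' hdvd]
  · rintro ⟨d, e⟩ hx
    simp only [Finset.mem_sigma, Finset.mem_filter, Finset.mem_Icc] at hx
    obtain ⟨⟨⟨hd1, hdN⟩, hcd⟩, ⟨he1, heN⟩, hce⟩ := hx
    simp only [Nat.mul_div_cancel_left _ hd1]
  · rintro ⟨n, d⟩ _
    rfl

/-- the splitting of the hyperbola method -/
private theorem Hyp_split (h : RC q f) (y : ℕ) :
    ∑ n ∈ (Finset.Icc 1 (y ^ 2)).filter (fun n => n.Coprime q), ∑ d ∈ n.divisors, f d =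
      ∑ d ∈ Finset.Icc 1 y, f d * (((Finset.Icc 1 (y ^ 2 / d)).filter (fun e => e.Coprime q)).card : ℤ) +
        ∑ e ∈ (Finset.Icc 1 y).filter (fun e => e.Coprime q), ∑ d ∈ Finset.Ico (y + 1) (y ^ 2 / e + 1), f d := by
  rw [Hyp_pairs h]
  have hyy : y ≤ y ^ 2 := by
    rcases Nat.eq_zero_or_pos y with rfl | hy
    · simp
    · exact Nat.le_self_pow two_ne_zero y
  have h1 : Finset.Icc 1 (y ^ 2) = Finset.Icc 1 y ∪ Finset.Icc (y + 1) (y ^ 2) := by
    ext x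
    simp only [Finset.mem_union, Finset.mem_Icc]
    omega
  have h2 : Disjoint (Finset.Icc 1 y) (Finset.Icc (y + 1) (y ^ 2)) := by
    rw [Finset.disjoint_left]
    intro x hx hx'
    rw [Finset.mem_Icc] at hx hx'
    omega
  rw [h1, Finset.sum_union h2]
  congr 1
  · refine Finset.sum_congr rfl fun d _ => ?_
    rw [Finset.sum_const, nsmul_eq_mul, mul_comm]
  · refine Finset.sum_comm' fun d e => ?_
    simp only [Finset.mem_Icc, Finset.mem_filter, Finset.mem_Ico]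
    constructor
    · rintro ⟨⟨hd1, hd2⟩, ⟨he1, he2⟩, hc⟩
      have hd0 : 0 < d := by omega
      rw [Nat.le_div_iff_mul_le hd0] at he2
      have hey : e ≤ y := by
        by_contra hcon
        push Not at hcon
        have : y ^ 2 < e * d := by
          rw [pow_two]
          exact Nat.mul_lt_mul_of_lt_of_le hcon (by omega) (by omega)
        omega
      have hde : d ≤ y ^ 2 / e := by
        rw [Nat.le_div_iff_mul_le he1, mul_comm]
        exact he2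
      exact ⟨⟨hd1, by omega⟩, ⟨he1, hey⟩, hc⟩
    · rintro ⟨⟨hd1, hd2⟩, ⟨he1, he2⟩, hc⟩
      have hd0 : 0 < d := by omega
      have hde : d ≤ y ^ 2 / e := by omega
      have hdy : d ≤ y ^ 2 := hde.trans (Nat.div_le_self _ _)
      rw [Nat.le_div_iff_mul_le he1] at hde
      refine ⟨⟨hd1, hdy⟩, ⟨he1, ?_⟩, hc⟩
      rw [Nat.le_div_iff_mul_le hd0, mul_comm]
      exact hde

/-- one term of the first sum -/
private theorem Hyp_term (h : RC q f) (N d : ℕ) (hd : 1 ≤ d) :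
    (q.totient : ℝ) / q * N * ((f d : ℝ) / d) - (q + 1) ≤
      (f d : ℝ) * ((((Finset.Icc 1 (N / d)).filter (fun e => e.Coprime q)).card : ℤ) : ℝ) := by
  have hq : 0 < q := h.qpos
  have hq0 : (0 : ℝ) < q := by exact_mod_cast hq
  have hd0 : (0 : ℝ) < d := by exact_mod_cast hd
  have h1 := count_abs hq (N / d)
  have h2 : ((N / d : ℕ) : ℝ) ≤ (N : ℝ) / d := Nat.cast_div_le
  have h3 : (N : ℝ) / d < ((N / d : ℕ) : ℝ) + 1 := by
    rw [div_lt_iff₀ hd0]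
    have h4 : N < (N / d + 1) * d := by
      rw [add_mul, one_mul, mul_comm]
      exact Nat.lt_mul_div_succ N hd |>.trans_le (by rw [mul_add, mul_one])
    exact_mod_cast h4
  have hphi : (q.totient : ℝ) / q ≤ 1 := by
    rw [div_le_one hq0]
    exact_mod_cast Nat.totient_le q
  have hphi0 : 0 ≤ (q.totient : ℝ) / q := by positivity
  set φ : ℝ := (q.totient : ℝ) / q with hφ
  rw [Int.cast_natCast]
  set c : ℝ := (((Finset.Icc 1 (N / d)).filter (fun e => e.Coprime q)).card : ℝ) with hc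
  have h5 : |c - φ * ((N : ℝ) / d)| ≤ q + 1 := by
    have h6 : |φ * ((N / d : ℕ) : ℝ) - φ * ((N : ℝ) / d)| ≤ 1 := by
      rw [← mul_sub, abs_mul, abs_of_nonneg hphi0]
      have h7 : |((N / d : ℕ) : ℝ) - (N : ℝ) / d| ≤ 1 := by
        rw [abs_le]
        constructor <;> linarith
      calc φ * |((N / d : ℕ) : ℝ) - (N : ℝ) / d| ≤ 1 * 1 :=
            mul_le_mul hphi h7 (abs_nonneg _) zero_le_one
        _ = 1 := one_mul 1
    calc |c - φ * ((N : ℝ) / d)| = |(c - φ * ((N / d : ℕ) : ℝ)) +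
          (φ * ((N / d : ℕ) : ℝ) - φ * ((N : ℝ) / d))| := by
          congr 1
          ring
      _ ≤ |c - φ * ((N / d : ℕ) : ℝ)| + |φ * ((N / d : ℕ) : ℝ) - φ * ((N : ℝ) / d)| := abs_add_le _ _
      _ ≤ q + 1 := add_le_add h1 h6
  have h8 : |(f d : ℝ)| ≤ 1 := by
    have := h.abs_le d
    exact_mod_cast this
  have h9 : |(f d : ℝ) * (c - φ * ((N : ℝ) / d))| ≤ q + 1 := by
    rw [abs_mul]
    calc |(f d : ℝ)| * |c - φ * ((N : ℝ) / d)| ≤ 1 * (q + 1) :=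
          mul_le_mul h8 h5 (abs_nonneg _) zero_le_one
      _ = q + 1 := one_mul _
  have h10 := (abs_le.1 h9).1
  have e : (f d : ℝ) * (c - φ * ((N : ℝ) / d)) = (f d : ℝ) * c - φ * N * ((f d : ℝ) / d) := by ring
  rw [e] at h10
  linarith

theorem hyp_ge (h : RC q f) (y : ℕ) :
    (q.totient : ℝ) / q * (y : ℝ) ^ 2 * ∑ d ∈ Finset.Icc 1 y, (f d : ℝ) / d - 3 * q * y ≤
      ((∑ n ∈ (Finset.Icc 1 (y ^ 2)).filter (fun n => n.Coprime q), ∑ d ∈ n.divisors, f d : ℤ) : ℝ) := by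
  have hq : 0 < q := h.qpos
  have hq1 : (1 : ℝ) ≤ q := by exact_mod_cast hq
  rw [Hyp_split h y]
  push_cast
  have hA : (q.totient : ℝ) / q * (y : ℝ) ^ 2 * ∑ d ∈ Finset.Icc 1 y, (f d : ℝ) / d - (q + 1) * y ≤
      ∑ d ∈ Finset.Icc 1 y, (f d : ℝ) *
        (((Finset.Icc 1 (y ^ 2 / d)).filter (fun e => e.Coprime q)).card : ℝ) := by
    have h1 : ∑ d ∈ Finset.Icc 1 y, ((q.totient : ℝ) / q * ((y ^ 2 : ℕ) : ℝ) * ((f d : ℝ) / d) - (q + 1)) ≤
        ∑ d ∈ Finset.Icc 1 y, (f d : ℝ) *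
          (((Finset.Icc 1 (y ^ 2 / d)).filter (fun e => e.Coprime q)).card : ℝ) := by
      refine Finset.sum_le_sum fun d hd => ?_
      rw [Finset.mem_Icc] at hd
      have h2 := Hyp_term h (y ^ 2) d hd.1
      rwa [Int.cast_natCast] at h2
    refine le_trans (le_of_eq ?_) h1
    rw [Finset.sum_sub_distrib, ← Finset.mul_sum, Finset.sum_const, Nat.card_Icc, nsmul_eq_mul]
    push_cast
    ring
  have hB : -((q : ℝ) * y) ≤ ∑ e ∈ (Finset.Icc 1 y).filter (fun e => e.Coprime q),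
      ∑ d ∈ Finset.Ico (y + 1) (y ^ 2 / e + 1), (f d : ℝ) := by
    have h1 : ∀ e ∈ (Finset.Icc 1 y).filter (fun e => e.Coprime q),
        -(q : ℝ) ≤ ∑ d ∈ Finset.Ico (y + 1) (y ^ 2 / e + 1), (f d : ℝ) := by
      intro e _
      have h2 := (abs_le.1 (h.sum_Ico (y + 1) (y ^ 2 / e + 1))).1
      have h3 : ((-(q : ℤ) : ℤ) : ℝ) ≤ ((∑ n ∈ Finset.Ico (y + 1) (y ^ 2 / e + 1), f n : ℤ) : ℝ) := by
        exact_mod_cast h2
      push_cast at h3
      exact h3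
    have h4 := Finset.card_nsmul_le_sum _ _ _ h1
    refine le_trans ?_ h4
    rw [nsmul_eq_mul]
    have h5 : (((Finset.Icc 1 y).filter (fun e => e.Coprime q)).card : ℝ) ≤ y := by
      have h6 : ((Finset.Icc 1 y).filter (fun e => e.Coprime q)).card ≤ (Finset.Icc 1 y).card :=
        Finset.card_filter_le _ _
      rw [Nat.card_Icc, Nat.add_sub_cancel] at h6
      exact_mod_cast h6
    nlinarith
  have hy0 : (0 : ℝ) ≤ y := by positivity
  have hfin : ((q : ℝ) + 1) * y + q * y ≤ 3 * q * y := by nlinarith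
  linarith

end Pool.Agent.LGO.SN
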