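import Mathlib
import Pool.Agent.LGO.SN.Defs

/-!
# LGO/SN: the lower row of a matrix and the form

`norm_eq`: `Im (γ τ) = Im τ / |c τ + d| ^ 2` (`ModularGroup.im_smul_eq_div_normSq`, `c = γ 1 0`, `d = γ 1 1`) and
`Im (γ τ) = √D / (2 a)` (`HasForm.im_eq`), so `|c τ + d| ^ 2 √D = 2 a Im τ`.
`inj_core`: `m (c, d) = m' (c', d')` with `m, m' > 0` and `(c, d)`, `(c', d')` coprime pairs (determinant `1`): `m = m'`
(`m = gcd (m c, m d)`) and `(c, d) = (c', d')`.  Then `a = a'` by `norm_eq` (`√D > 0`), and `γ' γ⁻¹` has lower left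
entry `0` (`ModularGroup.exists_eq_T_zpow_of_c_eq_zero`): `γ' τ = γ τ + k`, `k` an integer.  The real parts are
`- b / (2 a)` and `- b' / (2 a)` (`HasForm.core`), so `b = b' + 2 a k`.
-/

namespace Pool.Agent.LGO.SN

open UpperHalfPlane Pool.Agent.Hhelper14.ZP Pool.Agent.LGO.CK MatrixGroups

theorem norm_eq {D : ℕ} {τ : ℍ} {γ : SL(2, ℤ)} {a b c : ℤ} (h : HasForm (γ • τ : ℍ) a b c)
    (hd : b ^ 2 - 4 * a * c = -(D : ℤ)) :
    ‖((γ 1 0 : ℤ) : ℂ) * τ + ((γ 1 1 : ℤ) : ℂ)‖ ^ 2 * √D = 2 * a * (τ : ℂ).im := by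
  have h1 := h.im_eq
  have hdR : (4 * a * c - b ^ 2 : ℝ) = D := by
    have h2 : ((b ^ 2 - 4 * a * c : ℤ) : ℝ) = ((-(D : ℤ) : ℤ) : ℝ) := by rw [hd]
    push_cast at h2
    linarith
  rw [hdR] at h1
  have h2 : ((γ • τ : ℍ) : ℂ).im = (τ : ℂ).im / Complex.normSq (denom γ τ) :=
    ModularGroup.im_smul_eq_div_normSq γ τ
  have h3 : denom γ τ = ((γ 1 0 : ℤ) : ℂ) * τ + ((γ 1 1 : ℤ) : ℂ) :=
    ModularGroup.denom_apply γ τ
  rw [h3, Complex.normSq_eq_norm_sq] at h2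
  have h4 : ((γ 1 0 : ℤ) : ℂ) * τ + ((γ 1 1 : ℤ) : ℂ) ≠ 0 := by
    rw [← h3]
    exact denom_ne_zero _ _
  have h5 : 0 < ‖((γ 1 0 : ℤ) : ℂ) * τ + ((γ 1 1 : ℤ) : ℂ)‖ ^ 2 := by
    have := norm_pos_iff.2 h4
    positivity
  have ha := h.apos
  rw [h1] at h2
  rw [div_eq_div_iff (by positivity) h5.ne'] at h2
  linarith

theorem inj_core {D : ℕ} {τ : ℍ} {γ γ' : SL(2, ℤ)} {a b c a' b' c' : ℤ} (hD : 0 < D)
    (h : HasForm (γ • τ : ℍ) a b c) (hd : b ^ 2 - 4 * a * c = -(D : ℤ))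
    (h' : HasForm (γ' • τ : ℍ) a' b' c') (hd' : b' ^ 2 - 4 * a' * c' = -(D : ℤ))
    {m m' : ℤ} (hm : 0 < m) (hm' : 0 < m') (hc : m * γ 1 0 = m' * γ' 1 0) (he : m * γ 1 1 = m' * γ' 1 1) :
    m = m' ∧ a = a' ∧ a ∣ b - b' := by
  have d1 : γ 0 0 * γ 1 1 - γ 0 1 * γ 1 0 = 1 := by
    have := γ.2
    rwa [Matrix.det_fin_two] at this
  have d2 : γ' 0 0 * γ' 1 1 - γ' 0 1 * γ' 1 0 = 1 := by
    have := γ'.2
    rwa [Matrix.det_fin_two] at this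
  have e1 : m' ∣ m := ⟨γ 0 0 * γ' 1 1 - γ 0 1 * γ' 1 0, by
    linear_combination (-m) * d1 + γ 0 0 * he - γ 0 1 * hc⟩
  have e2 : m ∣ m' := ⟨γ' 0 0 * γ 1 1 - γ' 0 1 * γ 1 0, by
    linear_combination (-m') * d2 - γ' 0 0 * he + γ' 0 1 * hc⟩
  have e3 : m = m' := Int.dvd_antisymm hm.le hm'.le e2 e1
  subst e3
  have f1 : γ 1 0 = γ' 1 0 := mul_left_cancel₀ hm.ne' hc
  have f2 : γ 1 1 = γ' 1 1 := mul_left_cancel₀ hm.ne' he
  have n1 := norm_eq h hd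
  have n2 := norm_eq h' hd'
  rw [← f1, ← f2, n1] at n2
  have hy : 0 < (τ : ℂ).im := τ.im_pos
  have ha : a = a' := by
    have h3 : (a : ℝ) * (τ : ℂ).im = a' * (τ : ℂ).im := by linarith
    have h4 := mul_right_cancel₀ hy.ne' h3
    exact_mod_cast h4
  refine ⟨rfl, ha, ?_⟩
  have hz : (γ' * γ⁻¹) 1 0 = 0 := by
    have h5 : (γ' * γ⁻¹) 1 0 = γ' 1 0 * γ 1 1 - γ' 1 1 * γ 1 0 := by
      rw [Matrix.SpecialLinearGroup.coe_mul, Matrix.SpecialLinearGroup.coe_inv, Matrix.mul_apply,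
        Fin.sum_univ_two, Matrix.adjugate_fin_two]
      simp
      ring
    rw [h5, f1, f2]
    ring
  obtain ⟨k, hk⟩ := ModularGroup.exists_eq_T_zpow_of_c_eq_zero hz
  have h6 := hk (γ • τ)
  rw [smul_smul, inv_mul_cancel_right] at h6
  have h7 : ((γ' • τ : ℍ) : ℂ).re = ((γ • τ : ℍ) : ℂ).re + k := by
    rw [h6, UpperHalfPlane.modular_T_zpow_smul]
    simp [add_comm]
  have c1 := h.core.1
  have c2 := h'.core.1
  rw [h7, ← ha] at c2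
  refine ⟨2 * k, ?_⟩
  have h8 : (b : ℝ) - b' = a * (2 * k) := by linarith
  exact_mod_cast h8

end Pool.Agent.LGO.SN
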