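import Mathlib

/-!
# LGO/SN: lattice points in an ellipse

`|u (ξ + i y) + v| ^ 2 = (u ξ + v) ^ 2 + (u y) ^ 2 ≤ 2 X y / √D`: `|u| ≤ A := √(2 X / (√D y))`, and for every `u` the number
`v` is in an interval of length `2 B`, `B := √(2 X y / √D)`.  So `#s ≤ (2 A + 1) (2 B + 1) = 4 A B + 2 A + 2 B + 1`.
With `S = X / √D`: `A B = 2 S`; `S ≥ √X ≥ 1` (`X ≥ D ≥ 1`); `2 y ≤ √D`: `B ^ 2 ≤ X`, so `B ≤ √X ≤ S`; `4 y ^ 2 ≥ 3`,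
`D ≥ 1`: `A ^ 2 ≤ 2 X / y ≤ 4 X / √3 ≤ (5/2) X`, so `A ≤ 2 √X ≤ 2 S`.  Total: `≤ 8 S + 4 S + 2 S + S ≤ 16 S`.
(Number of integers in an interval of length `L`: at most `L + 1`; `Int.card_Icc`, `⌊ ⌋`, `⌈ ⌉`; fibres over `u`:
`Finset.card_le_mul_card_image`, or a product of two intervals after the injective map `(u, v) ↦ (u, v + ⌊u ξ⌋)`:
`|v + ⌊u ξ⌋| ≤ B + 1` is also enough if one has room: use the fibres.)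
-/

namespace Pool.Agent.LGO.SN

theorem lat_card {D X : ℕ} (hD : 0 < D) (hX : D ≤ X) {ξ y : ℝ} (hy : 0 < y) (h3 : 3 ≤ 4 * y ^ 2) (h2 : 2 * y ≤ √D)
    (s : Finset (ℤ × ℤ)) (hs : ∀ p ∈ s, ((p.1 : ℝ) * ξ + p.2) ^ 2 + ((p.1 : ℝ) * y) ^ 2 ≤ 2 * X * y / √D) :
    (s.card : ℝ) ≤ 16 * X / √D := by
  sorry

end Pool.Agent.LGO.SN
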