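import Mathlib
import Pool.Agent.LGO.SN.Chi

/-!
# LGO/SN: `r` is multiplicative, `g` is supermultiplicative

`r_mul`: `Nat.Coprime.sum_divisors_mul` (or `Nat.divisors_mul`, `Nat.Coprime.card_divisors_mul`...: the divisors of `a b`
are the products `d e`, `d ∣ a`, `e ∣ b`, uniquely), `chi D (d * e) = chi D d * chi D e` (`(chi_rc hD).mul`).
`g_mul`: let `a, b` be coprime and positive.  `(m, β), (m', β')` with `m ^ 2 ∣ a`, `β` a root modulo `a / m ^ 2`, `m' ^ 2 ∣ b`,
`β'` a root modulo `b / m' ^ 2` are mapped to `(m m', β'')`, `β''` the Chinese remainder of `β, β'` modulo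
`a b / (m m') ^ 2 = (a / m ^ 2) (b / m' ^ 2)` (`Nat.chineseRemainder`, `Nat.chineseRemainder_lt_mul`); it is a root
(`Nat.Coprime.mul_dvd_of_dvd_of_dvd`, `β''^2 + D ≡ β^2 + D`), and the map is injective: `m m'` determines `m = gcd (m m', a)`
... (`m ∣ a`, `m'` prime to `a`) and `m'`, and `β = β'' mod (a / m ^ 2)`, `β' = β'' mod (b / m' ^ 2)`.
(With `Finset.sigma` : `g D n = ((..).sigma fun m => rts D (n / m ^ 2)).card`.)
-/

namespace Pool.Agent.LGO.SN

theorem r_mul {D a b : ℕ} (hD : 0 < D) (hab : a.Coprime b) : r D (a * b) = r D a * r D b := by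
  unfold r
  rw [hab.divisors_mul, Finset.sum_map, Finset.sum_mul_sum]
  simp only [Function.Embedding.coeFn_mk]
  refine (Finset.sum_attach (a.divisors ×ˢ b.divisors) (fun p : ℕ × ℕ => chi D (p.1 * p.2))).trans ?_
  rw [Finset.sum_product]
  refine Finset.sum_congr rfl fun d _ => Finset.sum_congr rfl fun e _ => ?_
  exact (chi_rc hD).mul d e

private theorem Mul_rts {D u v : ℕ} (hu : 0 < u) (hv : 0 < v) (huv : u.Coprime v) :
    (rts D u).card * (rts D v).card ≤ (rts D (u * v)).card := by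
  classical
  rw [← Finset.card_product]
  refine Finset.card_le_card_of_injOn (fun p => (Nat.chineseRemainder huv p.1 p.2 : ℕ)) ?_ ?_
  · rintro ⟨x, y⟩ h
    rw [Finset.mem_coe, Finset.mem_product] at h
    obtain ⟨hx, hy⟩ := h
    simp only [rts, Finset.mem_filter, Finset.mem_range] at hx hy
    have h1 := (Nat.chineseRemainder huv x y).2
    simp only [rts, Finset.coe_filter, Finset.mem_range, Set.mem_setOf_eq]
    refine ⟨Nat.chineseRemainder_lt_mul huv x y hu.ne' hv.ne', ?_⟩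
    refine Nat.Coprime.mul_dvd_of_dvd_of_dvd huv ?_ ?_
    · have h2 : (Nat.chineseRemainder huv x y : ℕ) ^ 2 + D ≡ x ^ 2 + D [MOD u] :=
        (h1.1.pow 2).add_right D
      exact (Nat.ModEq.dvd_iff h2 dvd_rfl).2 hx.2
    · have h2 : (Nat.chineseRemainder huv x y : ℕ) ^ 2 + D ≡ y ^ 2 + D [MOD v] :=
        (h1.2.pow 2).add_right D
      exact (Nat.ModEq.dvd_iff h2 dvd_rfl).2 hy.2
  · rintro ⟨x, y⟩ h ⟨x', y'⟩ h' he
    rw [Finset.mem_coe, Finset.mem_product] at h h'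
    simp only [rts, Finset.mem_filter, Finset.mem_range] at h h'
    have h1 := (Nat.chineseRemainder huv x y).2
    have h2 := (Nat.chineseRemainder huv x' y').2
    have he' : (Nat.chineseRemainder huv x y : ℕ) = (Nat.chineseRemainder huv x' y' : ℕ) := he
    rw [he'] at h1
    have h3 : x = x' := by
      have h4 : x ≡ x' [MOD u] := h1.1.symm.trans h2.1
      exact Nat.ModEq.eq_of_lt_of_lt h4 h.1.1 h'.1.1
    have h5 : y = y' := by
      have h4 : y ≡ y' [MOD v] := h1.2.symm.trans h2.2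
      exact Nat.ModEq.eq_of_lt_of_lt h4 h.2.1 h'.2.1
    rw [h3, h5]

theorem g_mul {D a b : ℕ} (ha : 0 < a) (hb : 0 < b) (hab : a.Coprime b) : g D a * g D b ≤ g D (a * b) := by
  classical
  set S : ℕ → Finset ℕ := fun n => (Finset.Icc 1 n).filter (fun m => m ^ 2 ∣ n) with hS
  have hmem : ∀ {n m : ℕ}, m ∈ S n ↔ (1 ≤ m ∧ m ≤ n) ∧ m ^ 2 ∣ n := by
    intro n m
    simp [hS]
  have hg : ∀ n, g D n = ∑ m ∈ S n, (rts D (n / m ^ 2)).card := fun n => rfl
  rw [hg a, hg b, hg (a * b), Finset.sum_mul_sum, ← Finset.sum_product']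
  have hinj : Set.InjOn (fun p : ℕ × ℕ => p.1 * p.2) ((S a ×ˢ S b : Finset (ℕ × ℕ)) : Set (ℕ × ℕ)) := by
    refine hab.mul_injOn_divisors.mono ?_
    rintro ⟨m, m'⟩ h
    rw [Finset.mem_coe, Finset.mem_product, hmem, hmem] at h
    rw [Finset.mem_coe, Finset.mem_product, Nat.mem_divisors, Nat.mem_divisors]
    exact ⟨⟨(dvd_pow_self m two_ne_zero).trans h.1.2, ha.ne'⟩, (dvd_pow_self m' two_ne_zero).trans h.2.2, hb.ne'⟩
  calc ∑ x ∈ S a ×ˢ S b, (rts D (a / x.1 ^ 2)).card * (rts D (b / x.2 ^ 2)).card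
      ≤ ∑ x ∈ S a ×ˢ S b, (rts D (a * b / (x.1 * x.2) ^ 2)).card := by
        refine Finset.sum_le_sum fun x hx => ?_
        rw [Finset.mem_product, hmem, hmem] at hx
        have h1 : a * b / (x.1 * x.2) ^ 2 = a / x.1 ^ 2 * (b / x.2 ^ 2) := by
          rw [mul_pow, Nat.div_mul_div_comm hx.1.2 hx.2.2]
        rw [h1]
        refine Mul_rts ?_ ?_ ?_
        · exact Nat.div_pos (Nat.le_of_dvd ha hx.1.2) (by have := hx.1.1.1; positivity)
        · exact Nat.div_pos (Nat.le_of_dvd hb hx.2.2) (by have := hx.2.1.1; positivity)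
        · exact Nat.Coprime.of_dvd (Nat.div_dvd_of_dvd hx.1.2) (Nat.div_dvd_of_dvd hx.2.2) hab
    _ = ∑ M ∈ (S a ×ˢ S b).image (fun p => p.1 * p.2), (rts D (a * b / M ^ 2)).card := by
        rw [Finset.sum_image hinj]
    _ ≤ ∑ M ∈ S (a * b), (rts D (a * b / M ^ 2)).card := by
        refine Finset.sum_le_sum_of_subset fun M hM => ?_
        obtain ⟨⟨m, m'⟩, h, rfl⟩ := Finset.mem_image.1 hM
        rw [Finset.mem_product, hmem, hmem] at h
        rw [hmem]
        refine ⟨⟨Nat.mul_pos h.1.1.1 h.2.1.1, Nat.mul_le_mul h.1.1.2 h.2.1.2⟩, ?_⟩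
        rw [mul_pow]
        exact Nat.mul_dvd_mul h.1.2 h.2.2

end Pool.Agent.LGO.SN
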