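import Mathlib
import Pool.Agent.LGO.SN.Chi
import Pool.Agent.LGO.SN.Hen

/-!
# LGO/SN: `r ≤ g` at prime powers

`p` an odd prime, `p ∤ D`.  The `m ≥ 1` with `m ^ 2 ∣ p ^ k` are `p ^ i`, `2 i ≤ k` (`Nat.dvd_prime_pow`), and
`p ^ k / p ^ (2 i) = p ^ (k - 2 i)`, so `g D (p ^ k) = ∑ i ≤ k / 2, #rts D (p ^ (k - 2 i))` (only `≥` is needed).
`r D (p ^ k) = ∑ i ≤ k, (chi D p) ^ i` (`Nat.divisors_prime_pow`, `chi` is multiplicative), `chi D p = 1` or `-1`.
If `chi D p = 1`: `r = k + 1`; `g ≥ 2 (k + 1) / 2 = k + 1` for `k` odd (`rts_two_le`), `g ≥ 2 (k / 2) + 1 = k + 1` for `k`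
even (`rts_one` for `2 i = k`).  If `chi D p = -1`: `r = 0` for `k` odd, and `r = 1 ≤ g` for `k` even (`rts_one`).
-/

namespace Pool.Agent.LGO.SN

private lemma Pp_pow {D p : ℕ} (hD : 0 < D) (i : ℕ) : chi D (p ^ i) = chi D p ^ i := by
  induction i with
  | zero => rw [pow_zero, pow_zero, (chi_rc hD).one]
  | succ i ih => rw [pow_succ, pow_succ, (chi_rc hD).mul, ih]

private lemma Pp_r {D p : ℕ} (hD : 0 < D) (hp : p.Prime) (k : ℕ) :
    r D (p ^ k) = ∑ i ∈ Finset.range (k + 1), chi D p ^ i := by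
  unfold r
  rw [Nat.sum_divisors_prime_pow hp]
  exact Finset.sum_congr rfl fun i _ => Pp_pow hD i

private lemma Pp_g {D p : ℕ} (hp : p.Prime) (k : ℕ) :
    ∑ i ∈ Finset.range (k / 2 + 1), (rts D (p ^ (k - 2 * i))).card ≤ g D (p ^ k) := by
  unfold g
  have h1 : ∑ i ∈ Finset.range (k / 2 + 1), (rts D (p ^ (k - 2 * i))).card =
      ∑ m ∈ (Finset.range (k / 2 + 1)).image (fun i => p ^ i), (rts D (p ^ k / m ^ 2)).card := by
    rw [Finset.sum_image]
    · refine Finset.sum_congr rfl fun i hi => ?_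
      rw [Finset.mem_range] at hi
      rw [← pow_mul, Nat.pow_div (by omega) hp.pos, mul_comm i 2]
    · intro a _ b _ hab
      exact Nat.pow_right_injective hp.two_le hab
  rw [h1]
  refine Finset.sum_le_sum_of_subset fun m hm => ?_
  rw [Finset.mem_image] at hm
  obtain ⟨i, hi, rfl⟩ := hm
  rw [Finset.mem_range] at hi
  rw [Finset.mem_filter, Finset.mem_Icc]
  refine ⟨⟨Nat.one_le_pow _ _ hp.pos, Nat.pow_le_pow_right hp.pos (by omega)⟩, ?_⟩
  rw [← pow_mul]
  exact pow_dvd_pow _ (by omega)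

theorem r_le_g_prime_pow {D p : ℕ} (hD : 0 < D) (hp : p.Prime) (hp2 : p ≠ 2) (hpD : ¬ p ∣ D) (k : ℕ) :
    r D (p ^ k) ≤ g D (p ^ k) := by
  have hg := Pp_g (D := D) hp k
  have hcop : p.Coprime (4 * D) := by
    rw [Nat.Prime.coprime_iff_not_dvd hp]
    intro h
    rcases hp.dvd_mul.1 h with h | h
    · have h2 : p ∣ 2 ^ 2 := by simpa using h
      exact hp2 ((Nat.prime_dvd_prime_iff_eq hp Nat.prime_two).1 (hp.dvd_of_dvd_pow h2))
    · exact hpD h
  rcases (chi_rc hD).val p hcop with hc | hc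
  · have hr : r D (p ^ k) = ((k + 1 : ℕ) : ℤ) := by
      rw [Pp_r hD hp, hc]
      simp
    rw [hr]
    refine Nat.cast_le.2 (le_trans ?_ hg)
    rcases Nat.even_or_odd' k with ⟨t, rfl | rfl⟩
    · rw [Nat.mul_div_cancel_left _ two_pos, Finset.sum_range_succ, Nat.sub_self, pow_zero, rts_one]
      have h2 : t * 2 ≤ ∑ i ∈ Finset.range t, (rts D (p ^ (2 * t - 2 * i))).card := by
        have := Finset.card_nsmul_le_sum (Finset.range t)
          (fun i => (rts D (p ^ (2 * t - 2 * i))).card) 2 (fun i hi => by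
            rw [Finset.mem_range] at hi
            exact rts_two_le hp hp2 hpD hc (by omega))
        rwa [Finset.card_range, smul_eq_mul] at this
      omega
    · have h3 : (2 * t + 1) / 2 = t := by omega
      rw [h3]
      have h2 : (t + 1) * 2 ≤ ∑ i ∈ Finset.range (t + 1), (rts D (p ^ (2 * t + 1 - 2 * i))).card := by
        have := Finset.card_nsmul_le_sum (Finset.range (t + 1))
          (fun i => (rts D (p ^ (2 * t + 1 - 2 * i))).card) 2 (fun i hi => by
            rw [Finset.mem_range] at hi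
            exact rts_two_le hp hp2 hpD hc (by omega))
        rwa [Finset.card_range, smul_eq_mul] at this
      omega
  · rw [Pp_r hD hp, hc, neg_one_geom_sum]
    split_ifs with he
    · exact Int.natCast_nonneg _
    · have hk : Even k := by
        rw [Nat.even_add_one, not_not] at he
        exact he
      obtain ⟨t, ht⟩ := hk
      have h1 : 1 ≤ g D (p ^ k) := by
        refine le_trans ?_ hg
        have h2 : k / 2 = t := by omega
        rw [h2, Finset.sum_range_succ]
        have h3 : k - 2 * t = 0 := by omega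
        rw [h3, pow_zero, rts_one]
        omega
      exact_mod_cast h1

end Pool.Agent.LGO.SN
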