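import Mathlib
import Pool.Agent.LGO.SN.Pp
import Pool.Agent.LGO.SN.Mul

/-!
# LGO/SN: `0 ≤ r ≤ g` for `n` prime to `2 D`

Induction `Nat.recOnPosPrimePosCoprime` (or `Nat.recOnPrimeCoprime`): `n = 1`: `r D 1 = chi D 1 = 1`, `g D 1 = 1`
(`rts_one`); `n = p ^ k`: `p` is odd and does not divide `D` (`k ≥ 1`), `r_le_g_prime_pow`; and `0 ≤ r D (p ^ k)` because
it is `∑ i ≤ k, (± 1) ^ i`; `n = a b` coprime: `r_mul`, `g_mul`, `0 ≤ r D a ≤ g D a`, `0 ≤ r D b ≤ g D b`.
-/

namespace Pool.Agent.LGO.SN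

private lemma rg_chi_pow {D : ℕ} (hD : 0 < D) (p : ℕ) (i : ℕ) : chi D (p ^ i) = chi D p ^ i := by
  induction i with
  | zero => rw [pow_zero, pow_zero, (chi_rc hD).one]
  | succ i ih => rw [pow_succ, pow_succ, (chi_rc hD).mul, ih]

private lemma rg_nonneg {D p : ℕ} (hD : 0 < D) (hp : p.Prime) (hc : p.Coprime (4 * D)) (k : ℕ) :
    0 ≤ r D (p ^ k) := by
  unfold r
  rw [Nat.sum_divisors_prime_pow hp]
  simp only [rg_chi_pow hD]
  rcases (chi_rc hD).val p hc with h | h
  · rw [h]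
    simp only [one_pow]
    exact Finset.sum_nonneg fun _ _ => zero_le_one
  · rw [h, neg_one_geom_sum]
    split_ifs <;> norm_num

theorem r_le_g {D : ℕ} (hD : 0 < D) {n : ℕ} (hn : 0 < n) (hc : n.Coprime (2 * D)) :
    0 ≤ r D n ∧ r D n ≤ g D n := by
  induction n using Nat.recOnPosPrimePosCoprime with
  | zero => omega
  | one =>
    have h1 : r D 1 = 1 := by
      unfold r
      rw [Nat.divisors_one, Finset.sum_singleton, (chi_rc hD).one]
    have h2 : 1 ≤ g D 1 := by
      unfold g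
      have h3 : (1 : ℕ) ∈ (Finset.Icc 1 1).filter (fun m => m ^ 2 ∣ 1) := by simp
      refine le_trans ?_ (Finset.single_le_sum (f := fun m => (rts D (1 / m ^ 2)).card)
        (fun _ _ => Nat.zero_le _) h3)
      have h4 : (1 : ℕ) / 1 ^ 2 = 1 := by norm_num
      rw [h4, rts_one]
    rw [h1]
    exact ⟨by norm_num, by exact_mod_cast h2⟩
  | prime_pow p k hp hk =>
    have h1 : p.Coprime (2 * D) := Nat.Coprime.coprime_dvd_left (dvd_pow_self p hk.ne') hc
    have h2 : p.Coprime 2 := Nat.Coprime.coprime_mul_right_right h1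
    have h3 : p.Coprime D := Nat.Coprime.coprime_mul_left_right h1
    have hp2 : p ≠ 2 := by
      rintro rfl
      norm_num at h2
    have hpD : ¬ p ∣ D := fun h => by
      have := Nat.Coprime.eq_one_of_dvd h3 h
      exact hp.one_lt.ne' this
    have h4 : p.Coprime (4 * D) := by
      have : (4 : ℕ) = 2 * 2 := rfl
      rw [this]
      exact Nat.Coprime.mul_right (Nat.Coprime.mul_right h2 h2) h3
    exact ⟨rg_nonneg hD hp h4 k, r_le_g_prime_pow hD hp hp2 hpD k⟩
  | coprime a b ha hb hab iha ihb =>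
    obtain ⟨a1, a2⟩ := iha (by omega) (Nat.Coprime.coprime_mul_right hc)
    obtain ⟨b1, b2⟩ := ihb (by omega) (Nat.Coprime.coprime_mul_left hc)
    have h1 : (g D a : ℤ) * g D b ≤ g D (a * b) := by
      exact_mod_cast g_mul (D := D) (by omega : 0 < a) (by omega : 0 < b) hab
    rw [r_mul hD hab]
    exact ⟨mul_nonneg a1 b1, (mul_le_mul a2 b2 b1 (by positivity)).trans h1⟩

end Pool.Agent.LGO.SN
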