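import Mathlib
import Pool.Agent.LGO.SN.Defs

/-!
# LGO/SN: points with a form of discriminant `-D`

`exists_pt`: `n` odd and prime to `D`, `β < n`, `n ∣ β ^ 2 + D`.  Let `b = β` if `β ≡ D mod 2`, `b = β + n` otherwise (then
`b ≡ D mod 2` because `n` is odd).  `4 ∣ b ^ 2 + D` (`D ≡ 0 mod 4`: `b` even; `D ≡ 3 mod 4`: `b` odd) and `n ∣ b ^ 2 + D`, so
`4 n ∣ b ^ 2 + D = 4 n c`.  `(n, b, c)` is primitive: a common divisor divides `n` and `D = 4 n c - b ^ 2`.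
The point is `τ = (-b + i √D) / (2 n)`.
`exists_low`: every element of `cls D` is `j(τ)` with `τ` in the fundamental domain (`ModularGroup.exists_smul_mem_fd`,
`HasForm.smul`, `jInv_smul`): `√3 / 2 ≤ Im τ`, i.e. `3 ≤ 4 (Im τ) ^ 2` (see the proof of `finite_disc` in
`Pool/Agent/LGO/CK/Form.lean`), and `Im τ = √D / (2 a) ≤ √D / 2` (`HasForm.im_eq`).
-/

namespace Pool.Agent.LGO.SN

open UpperHalfPlane Pool.Agent.Hhelper14.ZP Pool.Agent.LGO.CK MatrixGroups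

private theorem Pt_arith {D n β : ℕ} (hmod : D % 4 = 0 ∨ D % 4 = 3) (hn : n.Coprime (2 * D))
    (hβ : n ∣ β ^ 2 + D) : ∃ b c : ℤ, b ^ 2 - 4 * n * c = -(D : ℤ) ∧ (n : ℤ) ∣ b - β := by
  have hodd : Odd n := by
    have h1 : n.Coprime 2 := Nat.Coprime.coprime_mul_right_right hn
    exact Nat.coprime_two_right.1 h1
  obtain ⟨b, hb2, hbn⟩ : ∃ b : ℤ, b % 2 = (D : ℤ) % 2 ∧ (n : ℤ) ∣ b - β := by
    by_cases h : (β : ℤ) % 2 = (D : ℤ) % 2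
    · exact ⟨β, h, by simp⟩
    · refine ⟨β + n, ?_, by simp⟩
      obtain ⟨k, hk⟩ := hodd
      omega
  have h4 : (4 : ℤ) ∣ b ^ 2 + D := by
    rcases hmod with hm | hm
    · obtain ⟨k, hk⟩ : ∃ k : ℤ, b = 2 * k := ⟨b / 2, by omega⟩
      obtain ⟨l, hl⟩ : ∃ l : ℤ, (D : ℤ) = 4 * l := ⟨(D : ℤ) / 4, by omega⟩
      exact ⟨k ^ 2 + l, by rw [hk, hl]; ring⟩
    · obtain ⟨k, hk⟩ : ∃ k : ℤ, b = 2 * k + 1 := ⟨b / 2, by omega⟩
      obtain ⟨l, hl⟩ : ∃ l : ℤ, (D : ℤ) = 4 * l + 3 := ⟨(D : ℤ) / 4, by omega⟩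
      exact ⟨k ^ 2 + k + l + 1, by rw [hk, hl]; ring⟩
  have hn1 : (n : ℤ) ∣ b ^ 2 + D := by
    obtain ⟨k, hk⟩ := hbn
    have h5 : (n : ℤ) ∣ (β : ℤ) ^ 2 + D := by exact_mod_cast hβ
    obtain ⟨l, hl⟩ := h5
    refine ⟨l + k * (b + β), ?_⟩
    linear_combination hl + (b + β) * hk
  have hc : IsCoprime (4 : ℤ) (n : ℤ) := by
    have h1 : IsCoprime ((2 : ℕ) : ℤ) (n : ℤ) := Nat.isCoprime_iff_coprime.2 (Nat.coprime_two_left.2 hodd)
    have h2 := h1.pow_left (m := 2)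
    have e : ((2 : ℕ) : ℤ) ^ 2 = 4 := by norm_num
    rwa [e] at h2
  obtain ⟨c, hcc⟩ := hc.mul_dvd h4 hn1
  exact ⟨b, c, by linear_combination hcc, hbn⟩

theorem exists_pt {D n β : ℕ} (hmod : D % 4 = 0 ∨ D % 4 = 3) (hD : 0 < D) (hn : n.Coprime (2 * D))
    (hβ : β ∈ rts D n) : ∃ (τ : ℍ) (b c : ℤ), HasForm τ n b c ∧ b ^ 2 - 4 * n * c = -(D : ℤ) ∧
      (n : ℤ) ∣ b - β := by
  rw [rts, Finset.mem_filter, Finset.mem_range] at hβ
  obtain ⟨hlt, hdvd⟩ := hβ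
  have hn0 : 0 < n := by omega
  obtain ⟨b, c, hbc, hbn⟩ := Pt_arith hmod hn hdvd
  have hDr : (0 : ℝ) < D := by exact_mod_cast hD
  have hnr : (0 : ℝ) < n := by exact_mod_cast hn0
  have him : 0 < (⟨-(b : ℝ) / (2 * n), √(D : ℝ) / (2 * n)⟩ : ℂ).im := by
    show 0 < √(D : ℝ) / (2 * n)
    have := Real.sqrt_pos.2 hDr
    positivity
  refine ⟨⟨⟨-(b : ℝ) / (2 * n), √(D : ℝ) / (2 * n)⟩, him⟩, b, c, ⟨by exact_mod_cast hn0, ?_, ?_⟩, hbc, hbn⟩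
  · intro d h1 h2 h3
    have hdD : d ∣ (D : ℤ) := by
      have e : (D : ℤ) = n * (4 * c) - b * b := by linear_combination hbc
      rw [e]
      exact dvd_sub (Dvd.dvd.mul_right h1 _) (Dvd.dvd.mul_right h2 _)
    have hco : IsCoprime (n : ℤ) (D : ℤ) :=
      Nat.isCoprime_iff_coprime.2 (Nat.Coprime.coprime_mul_left_right hn)
    exact hco.isUnit_of_dvd' h1 hdD
  · show ((n : ℤ) : ℂ) * (⟨-(b : ℝ) / (2 * n), √(D : ℝ) / (2 * n)⟩ : ℂ) ^ 2 +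
      b * (⟨-(b : ℝ) / (2 * n), √(D : ℝ) / (2 * n)⟩ : ℂ) + c = 0
    have hs : √(D : ℝ) * √(D : ℝ) = D := Real.mul_self_sqrt hDr.le
    have hbcr : (b : ℝ) ^ 2 - 4 * n * c = -(D : ℝ) := by exact_mod_cast hbc
    apply Complex.ext
    · simp only [pow_two, Complex.add_re, Complex.mul_re, Complex.intCast_re, Complex.intCast_im,
        Complex.zero_re, Int.cast_natCast, Complex.natCast_re, Complex.natCast_im]
      field_simp
      nlinarith [hs, hbcr]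
    · simp only [pow_two, Complex.add_im, Complex.mul_im, Complex.mul_re, Complex.intCast_re, Complex.intCast_im,
        Complex.zero_im, Int.cast_natCast, Complex.natCast_re, Complex.natCast_im]
      field_simp
      ring

theorem exists_low {D : ℕ} {x : ℂ} (hx : x ∈ cls D) : ∃ (τ : ℍ) (a b c : ℤ), HasForm τ a b c ∧
    b ^ 2 - 4 * a * c = -(D : ℤ) ∧ jInv τ = x ∧ 3 ≤ 4 * (τ : ℂ).im ^ 2 ∧ 2 * (τ : ℂ).im ≤ √D := by
  obtain ⟨τ, a, b, c, h1, h2, rfl⟩ := hx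
  obtain ⟨γ, hγ⟩ := ModularGroup.exists_smul_mem_fd τ
  obtain ⟨a', b', c', h3, h4⟩ := h1.smul γ
  rw [h2] at h4
  have ha := h3.apos
  have him := h3.im_eq
  have hfr : |((γ • τ : ℍ) : ℂ).re| ≤ 1 / 2 := hγ.2
  have hfn : 1 ≤ Complex.normSq ((γ • τ : ℍ) : ℂ) := hγ.1
  rw [Complex.normSq_apply] at hfn
  refine ⟨γ • τ, a', b', c', h3, h4, jInv_smul _ _, ?_, ?_⟩
  · have h5 := abs_le.1 hfr
    nlinarith
  · have hDr : (4 * a' * c' - b' ^ 2 : ℝ) = D := by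
      have : 4 * a' * c' - b' ^ 2 = (D : ℤ) := by linarith
      exact_mod_cast this
    rw [hDr] at him
    rw [him]
    have ha1 : (1 : ℝ) ≤ a' := by exact_mod_cast h3.pos
    have hs := Real.sqrt_nonneg (D : ℝ)
    rw [mul_div_assoc', mul_comm (2 : ℝ) (√(D : ℝ)), mul_comm (2 : ℝ) (a' : ℝ),
      mul_div_mul_right _ _ (two_ne_zero)]
    exact div_le_self hs ha1

end Pool.Agent.LGO.SN
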