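import Mathlib
import Pool.Agent.LGO.SN.Pt
import Pool.Agent.LGO.SN.Inj
import Pool.Agent.LGO.SN.Lat
import Pool.Agent.LGO.Gal.JInj

/-!
# LGO/SN: counting representations

`rep_le`.  Let `G` be the finite set of the triples `(n, m, β)`, `1 ≤ n ≤ X`, `n` prime to `2 D`, `m ^ 2 ∣ n`,
`β ∈ rts D (n / m ^ 2)`; `#G = ∑ n, g D n` (`Finset.card_sigma`).  For every element let `a = n / m ^ 2` (prime to `2 D`),
`τ', b, c` be given by `exists_pt` for `a, β`; `x = j(τ') ∈ cls D`; `τ_x` is the point chosen by `exists_low` for `x` (it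
depends only on `x`); `Gal.j_inj`: `τ' = γ τ_x`.  Map `(n, m, β)` to `(x, (m γ 1 0, m γ 1 1))`.
Injective: `inj_core`: `m = m'`, `a = a'`, so `n = m ^ 2 a = n'`; `a ∣ b - b'`, `a ∣ b - β`, `a ∣ b' - β'`, `β, β' < a`:
`β = β'`.
For fixed `x` the image lies in the set of `lat_card`: by `norm_eq`
`|m (γ 1 0) τ_x + m (γ 1 1)| ^ 2 = m ^ 2 * 2 a Im τ_x / √D = 2 n Im τ_x / √D ≤ 2 X Im τ_x / √D`.
So `#G ≤ ∑ x ∈ cls D, 16 X / √D` (`finite_disc`; `Finset.card_le_mul_card_image` or `Finset.card_eq_sum_card_fiberwise`).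
-/

namespace Pool.Agent.LGO.SN

open UpperHalfPlane Pool.Agent.Hhelper14.ZP Pool.Agent.LGO.CK MatrixGroups

/-- The triples `(n, m, β)`, `1 ≤ n ≤ X`, `n` prime to `2 D`, `m ^ 2 ∣ n`, `β ∈ rts D (n / m ^ 2)`. -/
private noncomputable def trip (D X : ℕ) : Finset (Σ _ : ℕ, Σ _ : ℕ, ℕ) :=
  ((Finset.Icc 1 X).filter (fun n => n.Coprime (2 * D))).sigma fun n =>
    ((Finset.Icc 1 n).filter (fun m => m ^ 2 ∣ n)).sigma fun m => rts D (n / m ^ 2)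

private theorem card_trip (D X : ℕ) : (trip D X).card =
    ∑ n ∈ (Finset.Icc 1 X).filter (fun n => n.Coprime (2 * D)), g D n := by
  rw [trip, Finset.card_sigma]
  refine Finset.sum_congr rfl fun n _ => ?_
  rw [Finset.card_sigma, g]

private theorem mem_trip {D X : ℕ} {t : Σ _ : ℕ, Σ _ : ℕ, ℕ} (h : t ∈ trip D X) :
    1 ≤ t.1 ∧ t.1 ≤ X ∧ t.1.Coprime (2 * D) ∧ 1 ≤ t.2.1 ∧ t.2.1 ^ 2 ∣ t.1 ∧
      t.2.2 ∈ rts D (t.1 / t.2.1 ^ 2) := by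
  obtain ⟨n, m, β⟩ := t
  simp only [trip, Finset.mem_sigma, Finset.mem_filter, Finset.mem_Icc] at h
  exact ⟨h.1.1.1, h.1.1.2, h.1.2, h.2.1.1.1, h.2.1.2, h.2.2⟩

/-- The datum attached to a triple. -/
private theorem datum {D X : ℕ} (hD : 0 < D) (hmod : D % 4 = 0 ∨ D % 4 = 3) (T : ℂ → ℍ)
    (hT : ∀ x ∈ cls D, jInv (T x) = x) : ∀ t ∈ trip D X, ∃ (x : ℂ) (γ : SL(2, ℤ)) (b c : ℤ),
      x ∈ cls D ∧ HasForm (γ • T x : ℍ) ((t.1 / t.2.1 ^ 2 : ℕ) : ℤ) b c ∧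
        b ^ 2 - 4 * ((t.1 / t.2.1 ^ 2 : ℕ) : ℤ) * c = -(D : ℤ) ∧
        ((t.1 / t.2.1 ^ 2 : ℕ) : ℤ) ∣ b - t.2.2 := by
  intro t ht
  obtain ⟨-, -, hco, -, hm, hβ⟩ := mem_trip ht
  have hco' : (t.1 / t.2.1 ^ 2).Coprime (2 * D) := hco.coprime_dvd_left (Nat.div_dvd_of_dvd hm)
  obtain ⟨τ, b, c, h1, h2, h3⟩ := exists_pt hmod hD hco' hβ
  have hx : jInv τ ∈ cls D := ⟨τ, _, b, c, h1, h2, rfl⟩
  obtain ⟨γ, hγ⟩ := Gal.j_inj (hT _ hx).symm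
  refine ⟨jInv τ, γ, b, c, hx, ?_, h2, h3⟩
  rw [← hγ]
  exact h1

private theorem eq_of_dvd {a β β' : ℕ} {b b' : ℤ} (h1 : (a : ℤ) ∣ b - b') (h2 : (a : ℤ) ∣ b - β)
    (h3 : (a : ℤ) ∣ b' - β') (hβ : β < a) (hβ' : β' < a) : β = β' := by
  have h4 : (a : ℤ) ∣ (β : ℤ) - β' := by
    have h5 := dvd_sub (dvd_sub h1 h2) (dvd_neg.2 h3)
    have e : b - b' - (b - (β : ℤ)) - -(b' - (β' : ℤ)) = (β : ℤ) - β' := by ring
    rwa [e] at h5
  obtain ⟨k, hk⟩ := h4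
  have ha : (0 : ℤ) < a := by omega
  have hk0 : k = 0 := by
    by_contra hne
    rcases lt_or_gt_of_ne hne with hlt | hgt
    · have : (a : ℤ) * k ≤ a * (-1) := mul_le_mul_of_nonneg_left (by omega) ha.le
      omega
    · have : (a : ℤ) * 1 ≤ a * k := mul_le_mul_of_nonneg_left (by omega) ha.le
      omega
  rw [hk0, mul_zero] at hk
  omega

private theorem normSq_row (u v : ℤ) (τ : ℍ) :
    ((u : ℝ) * (τ : ℂ).re + v) ^ 2 + ((u : ℝ) * (τ : ℂ).im) ^ 2 = ‖(u : ℂ) * τ + (v : ℂ)‖ ^ 2 := by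
  rw [← Complex.normSq_eq_norm_sq, Complex.normSq_apply]
  simp only [Complex.add_re, Complex.mul_re, Complex.intCast_re, Complex.intCast_im, zero_mul, sub_zero,
    Complex.add_im, Complex.mul_im, add_zero]
  ring

theorem rep_le {D X : ℕ} (hD : 0 < D) (hmod : D % 4 = 0 ∨ D % 4 = 3) (hX : D ≤ X) :
    ((∑ n ∈ (Finset.Icc 1 X).filter (fun n => n.Coprime (2 * D)), g D n : ℕ) : ℝ) ≤
      (cls D).ncard * (16 * X / √D) := by
  classical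
  have hfin : (cls D).Finite := finite_disc (-(D : ℤ))
  have hlow : ∀ x ∈ cls D, ∃ τ : ℍ, jInv τ = x ∧ 3 ≤ 4 * (τ : ℂ).im ^ 2 ∧ 2 * (τ : ℂ).im ≤ √D := by
    intro x hx
    obtain ⟨τ, a, b, c, -, -, h1, h2, h3⟩ := exists_low hx
    exact ⟨τ, h1, h2, h3⟩
  choose! T hT using hlow
  have hdat := datum (X := X) hD hmod T (fun x hx => (hT x hx).1)
  choose! x γ b c hx using hdat
  have hsD : 0 < √(D : ℝ) := Real.sqrt_pos.2 (by exact_mod_cast hD)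
  set F : (Σ _ : ℕ, Σ _ : ℕ, ℕ) → ℤ × ℤ := fun t =>
    ((t.2.1 : ℤ) * (γ t) 1 0, (t.2.1 : ℤ) * (γ t) 1 1) with hF
  have hmaps : ∀ t ∈ trip D X, x t ∈ hfin.toFinset := by
    intro t ht
    rw [Set.Finite.mem_toFinset]
    exact (hx t ht).1
  have hcard := Finset.card_eq_sum_card_fiberwise hmaps
  have hfib : ∀ z ∈ hfin.toFinset, (((trip D X).filter (fun t => x t = z)).card : ℝ) ≤ 16 * X / √D := by
    intro z hz
    rw [Set.Finite.mem_toFinset] at hz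
    set s : Finset (Σ _ : ℕ, Σ _ : ℕ, ℕ) := (trip D X).filter (fun t => x t = z) with hs
    have hinj : Set.InjOn F s := by
      intro t ht t' ht' hFF
      rw [Finset.mem_coe, hs, Finset.mem_filter] at ht ht'
      obtain ⟨ht, hz1⟩ := ht
      obtain ⟨ht', hz2⟩ := ht'
      obtain ⟨-, h1, h2, h3⟩ := hx t ht
      obtain ⟨-, h1', h2', h3'⟩ := hx t' ht'
      rw [hz1] at h1
      rw [hz2] at h1'
      obtain ⟨hn1, -, -, hm1, hmd, hβ⟩ := mem_trip ht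
      obtain ⟨hn1', -, -, hm1', hmd', hβ'⟩ := mem_trip ht'
      rw [hF] at hFF
      simp only [Prod.mk.injEq] at hFF
      obtain ⟨e1, e2, e3⟩ := inj_core hD h1 h2 h1' h2' (m := t.2.1) (m' := t'.2.1) (by omega) (by omega)
        hFF.1 hFF.2
      have e1' : t.2.1 = t'.2.1 := by exact_mod_cast e1
      have e2' : t.1 / t.2.1 ^ 2 = t'.1 / t'.2.1 ^ 2 := by exact_mod_cast e2
      have e4 : t.1 = t'.1 := by
        rw [← Nat.mul_div_cancel' hmd, ← Nat.mul_div_cancel' hmd', e2', e1']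
      rw [rts, Finset.mem_filter, Finset.mem_range] at hβ hβ'
      have e5 : t.2.2 = t'.2.2 := by
        refine eq_of_dvd e3 h3 ?_ hβ.1 ?_
        · rw [e2']
          exact h3'
        · rw [e2']
          exact hβ'.1
      obtain ⟨n, m, β⟩ := t
      obtain ⟨n', m', β'⟩ := t'
      simp only at e1' e4 e5
      subst e1' e4 e5
      rfl
    rw [← Finset.card_image_of_injOn hinj]
    obtain ⟨hj, h3, h2⟩ := hT z hz
    refine lat_card hD hX (ξ := (T z : ℂ).re) (y := (T z : ℂ).im) (T z).im_pos h3 h2 _ ?_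
    intro p hp
    obtain ⟨t, ht, rfl⟩ := Finset.mem_image.1 hp
    rw [hs, Finset.mem_filter] at ht
    obtain ⟨ht, hz1⟩ := ht
    obtain ⟨-, h1, h4, -⟩ := hx t ht
    rw [hz1] at h1
    obtain ⟨hn1, hnX, -, hm1, hmd, -⟩ := mem_trip ht
    have hn := norm_eq h1 h4
    rw [normSq_row, hF]
    simp only
    have e1 : (((t.2.1 : ℤ) * (γ t) 1 0 : ℤ) : ℂ) * (T z : ℂ) + (((t.2.1 : ℤ) * (γ t) 1 1 : ℤ) : ℂ) =
        (t.2.1 : ℂ) * ((((γ t) 1 0 : ℤ) : ℂ) * (T z : ℂ) + (((γ t) 1 1 : ℤ) : ℂ)) := by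
      push_cast
      ring
    rw [e1, norm_mul, mul_pow, Complex.norm_natCast, le_div_iff₀ hsD, mul_assoc, hn]
    have e2 : ((t.2.1 : ℝ)) ^ 2 * ((t.1 / t.2.1 ^ 2 : ℕ) : ℝ) = t.1 := by
      have := Nat.mul_div_cancel' hmd
      exact_mod_cast this
    have e3 : ((((t.1 / t.2.1 ^ 2 : ℕ) : ℤ)) : ℝ) = ((t.1 / t.2.1 ^ 2 : ℕ) : ℝ) := by push_cast; rfl
    rw [e3]
    have hnX' : (t.1 : ℝ) ≤ X := by exact_mod_cast hnX
    have hy := (T z).im_pos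
    have hy' : 0 < (T z : ℂ).im := hy
    calc (t.2.1 : ℝ) ^ 2 * (2 * ((t.1 / t.2.1 ^ 2 : ℕ) : ℝ) * (T z : ℂ).im)
        = 2 * ((t.2.1 : ℝ) ^ 2 * ((t.1 / t.2.1 ^ 2 : ℕ) : ℝ)) * (T z : ℂ).im := by ring
      _ = 2 * t.1 * (T z : ℂ).im := by rw [e2]
      _ ≤ 2 * X * (T z : ℂ).im := by gcongr
  rw [← card_trip, hcard, Nat.cast_sum]
  refine (Finset.sum_le_sum hfib).trans ?_
  rw [Finset.sum_const, nsmul_eq_mul, Set.ncard_eq_toFinset_card _ hfin]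

end Pool.Agent.LGO.SN
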