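import Mathlib
import Pool.Agent.LGO.SN.Rep
import Pool.Agent.LGO.SN.RG
import Pool.Agent.LGO.SN.Hyp
import Pool.Agent.LGO.SN.Chi

/-!
# LGO/SN: `#(cls D) ≥ c D ^ (1/4)` for every discriminant `-D`

Let `q = 4 D`, `f = chi D` (`chi_rc`), `y = q ^ 2`, `X = y ^ 2 ≥ D`, `h = #(cls D)`.  `n` is prime to `q` iff it is prime to
`2 D`.  `hyp_ge`, `r_le_g` (`r D n` is `∑ d ∣ n, f d`), `rep_le`:
`φ(q) / q * y² * S - 3 q y ≤ h * 16 y² / √D`, `S = ∑ d ≤ y, f d / d ≥ c q ^ (-ε)` (`Siegel`, `q ^ 2 ≤ y`).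
Divide by `y²`: `φ(q) / q * S - 3 / q ≤ 16 h / √D`.  `φ(q) / q ≥ 1 / (1 + log₂ q) ≥ c₁ q ^ (-ε)` (`tot_ge`, the logarithm is
smaller than a power), `ε = 1/16`: `c c₁ q ^ (-1/8) - 3 / q ≤ 16 h / √D`.  For `q ≥ Q₀`: `3 / q ≤ (c c₁ / 2) q ^ (-1/8)`, so
`h ≥ c₂ √D q ^ (-1/8) ≥ c₃ D ^ (3/8) ≥ c₃ D ^ (1/4)`.  For `q < Q₀`: `h ≥ 1` (`cls D` is finite, `finite_disc`, and not
empty: `exists_pt` with `n = 1`, `β = 0`) and `D ^ (1/4) ≤ Q₀`.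
-/

namespace Pool.Agent.LGO.SN

open UpperHalfPlane Pool.Agent.Hhelper14.ZP Pool.Agent.LGO.CK MatrixGroups

private theorem Main_pos {D : ℕ} (hD : 0 < D) (hmod : D % 4 = 0 ∨ D % 4 = 3) :
    1 ≤ (cls D).ncard := by
  have hfin : (cls D).Finite := finite_disc (-(D : ℤ))
  obtain ⟨τ, b, c, h1, h2, -⟩ := exists_pt (n := 1) (β := 0) hmod hD (Nat.coprime_one_left _) (by
    simp [rts])
  have hne : (cls D).Nonempty := ⟨jInv τ, τ, _, b, c, h1, h2, rfl⟩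
  exact (Set.ncard_pos hfin).2 hne

/-- the main inequality -/
private theorem Main_ineq {D : ℕ} (hD : 0 < D) (hmod : D % 4 = 0 ∨ D % 4 = 3) {q : ℕ}
    (hq : q = 4 * D) {S : ℝ} (hS : S = ∑ d ∈ Finset.Icc 1 (q ^ 2), (chi D d : ℝ) / d) :
    (q.totient : ℝ) / q * S - 3 / q ≤ 16 * (cls D).ncard / √D := by
  have hq0 : 0 < q := by omega
  have hq0' : (0 : ℝ) < q := by exact_mod_cast hq0
  have hrc : RC q (chi D) := by rw [hq]; exact chi_rc hD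
  have h1 := hyp_ge hrc (q ^ 2)
  rw [← hS] at h1
  have hfil : (Finset.Icc 1 ((q ^ 2) ^ 2)).filter (fun n => n.Coprime q) =
      (Finset.Icc 1 ((q ^ 2) ^ 2)).filter (fun n => n.Coprime (2 * D)) := by
    refine Finset.filter_congr fun n _ => ?_
    rw [hq, show 4 * D = 2 * (2 * D) by ring, Nat.coprime_mul_iff_right]
    constructor
    · exact fun h => h.2
    · exact fun h => ⟨h.coprime_dvd_right (Dvd.intro _ rfl), h⟩
  have h2 : ((∑ n ∈ (Finset.Icc 1 ((q ^ 2) ^ 2)).filter (fun n => n.Coprime q),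
      ∑ d ∈ n.divisors, chi D d : ℤ) : ℝ) ≤
      ((∑ n ∈ (Finset.Icc 1 ((q ^ 2) ^ 2)).filter (fun n => n.Coprime (2 * D)), g D n : ℕ) : ℝ) := by
    rw [hfil]
    have h3 : (∑ n ∈ (Finset.Icc 1 ((q ^ 2) ^ 2)).filter (fun n => n.Coprime (2 * D)),
        ∑ d ∈ n.divisors, chi D d : ℤ) ≤
        ∑ n ∈ (Finset.Icc 1 ((q ^ 2) ^ 2)).filter (fun n => n.Coprime (2 * D)), (g D n : ℤ) := by
      refine Finset.sum_le_sum fun n hn => ?_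
      rw [Finset.mem_filter, Finset.mem_Icc] at hn
      exact (r_le_g hD (by omega) hn.2).2
    exact_mod_cast h3
  have hX : D ≤ (q ^ 2) ^ 2 := by
    have h4 : q ≤ (q ^ 2) ^ 2 := by
      rw [← pow_mul]
      exact Nat.le_self_pow (by norm_num) q
    omega
  have h5 := rep_le hD hmod hX
  have h6 := h1.trans (h2.trans h5)
  push_cast at h6
  have hy : (0 : ℝ) < ((q : ℝ) ^ 2) ^ 2 := by positivity
  have h7 : ((q.totient : ℝ) / q * S - 3 / q) * ((q : ℝ) ^ 2) ^ 2 =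
      (q.totient : ℝ) / q * ((q : ℝ) ^ 2) ^ 2 * S - 3 * q * (q : ℝ) ^ 2 := by
    field_simp
  refine le_of_mul_le_mul_right ?_ hy
  rw [h7]
  refine h6.trans (le_of_eq ?_)
  ring

private theorem Main_log {q : ℕ} (hq : 0 < q) :
    (1 + (Nat.log 2 q : ℝ)) ≤ 25 * (q : ℝ) ^ (1 / 16 : ℝ) := by
  have hq1 : (1 : ℝ) ≤ q := by exact_mod_cast hq
  have h1 : (Nat.log 2 q : ℝ) ≤ Real.log q / Real.log 2 := by
    have h2 := Real.natLog_le_logb q 2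
    rw [Real.logb] at h2
    exact_mod_cast h2
  have h3 : Real.log q ≤ (q : ℝ) ^ (1 / 16 : ℝ) / (1 / 16) :=
    Real.log_le_rpow_div (by positivity) (by norm_num)
  have h4 : (1 : ℝ) ≤ (q : ℝ) ^ (1 / 16 : ℝ) := Real.one_le_rpow hq1 (by norm_num)
  have h5 := Real.log_two_gt_d9
  have h6 : Real.log q / Real.log 2 ≤ 24 * (q : ℝ) ^ (1 / 16 : ℝ) := by
    rw [div_le_iff₀ (by linarith)]
    have h7 : (0.69 : ℝ) * (24 * (q : ℝ) ^ (1 / 16 : ℝ)) ≤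
        Real.log 2 * (24 * (q : ℝ) ^ (1 / 16 : ℝ)) := by
      refine mul_le_mul_of_nonneg_right (by linarith) (by positivity)
    linarith
  linarith

theorem cls_ge (hS : Siegel) : ∃ c : ℝ, 0 < c ∧ ∀ D : ℕ, 0 < D → (D % 4 = 0 ∨ D % 4 = 3) →
    c * (D : ℝ) ^ (1 / 4 : ℝ) ≤ (cls D).ncard := by
  obtain ⟨c₀, hc₀, hsie⟩ := hS (1 / 16) (by norm_num)
  refine ⟨c₀ / 1600, by positivity, fun D hD hmod => ?_⟩
  obtain ⟨q, hq⟩ : ∃ q, q = 4 * D := ⟨_, rfl⟩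
  have hq0 : 0 < q := by omega
  have hq1 : (1 : ℝ) ≤ q := by exact_mod_cast hq0
  have hq0' : (0 : ℝ) < q := by exact_mod_cast hq0
  have hD1 : (1 : ℝ) ≤ D := by exact_mod_cast hD
  have hqD : (q : ℝ) = 4 * D := by rw [hq]; push_cast; ring
  have hh1 : (1 : ℝ) ≤ (cls D).ncard := by exact_mod_cast Main_pos hD hmod
  obtain ⟨S, hSd⟩ : ∃ S : ℝ, S = ∑ d ∈ Finset.Icc 1 (q ^ 2), (chi D d : ℝ) / d := ⟨_, rfl⟩
  have hSc : c₀ * (q : ℝ) ^ (-(1 / 16) : ℝ) ≤ S := by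
    rw [hSd]
    exact hsie q (chi D) (by rw [hq]; exact chi_rc hD) (q ^ 2) le_rfl
  have hmain := Main_ineq hD hmod hq hSd
  -- the totient
  have htot : (q : ℝ) ^ (-(1 / 16) : ℝ) / 25 ≤ (q.totient : ℝ) / q := by
    have h1 : (q : ℝ) ≤ q.totient * (1 + Nat.log 2 q) := by exact_mod_cast tot_ge hq0
    have h2 := Main_log hq0
    have h3 : (q : ℝ) ≤ q.totient * (25 * (q : ℝ) ^ (1 / 16 : ℝ)) :=
      h1.trans (mul_le_mul_of_nonneg_left h2 (by positivity))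
    rw [Real.rpow_neg hq0'.le, div_le_div_iff₀ (by norm_num) hq0', inv_mul_le_iff₀ (by positivity)]
    linarith
  have hS0 : 0 ≤ S := le_trans (by positivity) hSc
  have hA : c₀ / 25 * (q : ℝ) ^ (-(1 / 8) : ℝ) ≤ (q.totient : ℝ) / q * S := by
    have h1 : (q : ℝ) ^ (-(1 / 8) : ℝ) = (q : ℝ) ^ (-(1 / 16) : ℝ) * (q : ℝ) ^ (-(1 / 16) : ℝ) := by
      rw [← Real.rpow_add hq0']
      norm_num
    calc c₀ / 25 * (q : ℝ) ^ (-(1 / 8) : ℝ) =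
        ((q : ℝ) ^ (-(1 / 16) : ℝ) / 25) * (c₀ * (q : ℝ) ^ (-(1 / 16) : ℝ)) := by rw [h1]; ring
      _ ≤ (q.totient : ℝ) / q * S := mul_le_mul htot hSc (by positivity) (by positivity)
  have hB := (sub_le_sub_right hA (3 / (q : ℝ))).trans hmain
  have hD4 : (D : ℝ) ^ (1 / 4 : ℝ) ≤ (q : ℝ) ^ (7 / 8 : ℝ) := by
    calc (D : ℝ) ^ (1 / 4 : ℝ) ≤ (q : ℝ) ^ (1 / 4 : ℝ) :=
          Real.rpow_le_rpow (by positivity) (by rw [hqD]; linarith) (by norm_num)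
      _ ≤ (q : ℝ) ^ (7 / 8 : ℝ) := Real.rpow_le_rpow_of_exponent_le hq1 (by norm_num)
  by_cases hbig : 150 / c₀ ≤ (q : ℝ) ^ (7 / 8 : ℝ)
  · -- large discriminants
    have h1 : 3 / (q : ℝ) ≤ c₀ / 50 * (q : ℝ) ^ (-(1 / 8) : ℝ) := by
      have h2 : (q : ℝ) = (q : ℝ) ^ (7 / 8 : ℝ) * (q : ℝ) ^ (1 / 8 : ℝ) := by
        rw [← Real.rpow_add hq0']
        norm_num
      have h3 : 0 < (q : ℝ) ^ (1 / 8 : ℝ) := by positivity
      have h4 : 0 < (q : ℝ) ^ (7 / 8 : ℝ) := by positivity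
      rw [Real.rpow_neg hq0'.le, div_le_iff₀ hq0']
      nth_rewrite 2 [h2]
      rw [div_le_iff₀ hc₀] at hbig
      calc (3 : ℝ) = 150 / 50 := by norm_num
        _ ≤ (q : ℝ) ^ (7 / 8 : ℝ) * c₀ / 50 := by linarith
        _ = c₀ / 50 * ((q : ℝ) ^ (1 / 8 : ℝ))⁻¹ * ((q : ℝ) ^ (7 / 8 : ℝ) * (q : ℝ) ^ (1 / 8 : ℝ)) := by
          field_simp
    have h2 : c₀ / 50 * (q : ℝ) ^ (-(1 / 8) : ℝ) ≤ 16 * (cls D).ncard / √D := by
      have : c₀ / 25 * (q : ℝ) ^ (-(1 / 8) : ℝ) = 2 * (c₀ / 50 * (q : ℝ) ^ (-(1 / 8) : ℝ)) := by ring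
      linarith
    have hsD : 0 < √(D : ℝ) := Real.sqrt_pos.2 (by linarith)
    rw [le_div_iff₀ hsD] at h2
    have h3 : (1 / 2) * (D : ℝ) ^ (-(1 / 8) : ℝ) ≤ (q : ℝ) ^ (-(1 / 8) : ℝ) := by
      rw [hqD, Real.mul_rpow (by norm_num) (by positivity)]
      refine mul_le_mul_of_nonneg_right ?_ (by positivity)
      have h4 : (4 : ℝ) ^ (-(1 / 2) : ℝ) ≤ (4 : ℝ) ^ (-(1 / 8) : ℝ) :=
        Real.rpow_le_rpow_of_exponent_le (by norm_num) (by norm_num)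
      have h5 : (4 : ℝ) ^ (-(1 / 2) : ℝ) = 1 / 2 := by
        rw [Real.rpow_neg (by norm_num), show (4 : ℝ) = 2 ^ (2 : ℝ) by norm_num,
          ← Real.rpow_mul (by norm_num)]
        norm_num
      rw [h5] at h4
      exact h4
    have h4 : (D : ℝ) ^ (-(1 / 8) : ℝ) * √(D : ℝ) = (D : ℝ) ^ (3 / 8 : ℝ) := by
      rw [Real.sqrt_eq_rpow, ← Real.rpow_add (by linarith)]
      norm_num
    have h5 : (D : ℝ) ^ (1 / 4 : ℝ) ≤ (D : ℝ) ^ (3 / 8 : ℝ) :=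
      Real.rpow_le_rpow_of_exponent_le hD1 (by norm_num)
    have h6 : c₀ / 50 * ((1 / 2) * (D : ℝ) ^ (-(1 / 8) : ℝ)) * √(D : ℝ) ≤
        c₀ / 50 * (q : ℝ) ^ (-(1 / 8) : ℝ) * √(D : ℝ) :=
      mul_le_mul_of_nonneg_right (mul_le_mul_of_nonneg_left h3 (by positivity)) hsD.le
    have h7 : c₀ / 50 * ((1 / 2) * (D : ℝ) ^ (-(1 / 8) : ℝ)) * √(D : ℝ) =
        c₀ / 100 * (D : ℝ) ^ (3 / 8 : ℝ) := by
      rw [← h4]; ring
    have h8 : c₀ / 100 * (D : ℝ) ^ (1 / 4 : ℝ) ≤ c₀ / 100 * (D : ℝ) ^ (3 / 8 : ℝ) :=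
      mul_le_mul_of_nonneg_left h5 (by positivity)
    have h9 : c₀ / 1600 * (D : ℝ) ^ (1 / 4 : ℝ) = (c₀ / 100 * (D : ℝ) ^ (1 / 4 : ℝ)) / 16 := by ring
    rw [h9, div_le_iff₀ (by norm_num)]
    linarith
  · -- small discriminants
    push Not at hbig
    have h1 : (D : ℝ) ^ (1 / 4 : ℝ) ≤ 150 / c₀ := hD4.trans hbig.le
    calc c₀ / 1600 * (D : ℝ) ^ (1 / 4 : ℝ) ≤ c₀ / 1600 * (150 / c₀) :=
          mul_le_mul_of_nonneg_left h1 (by positivity)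
      _ = 150 / 1600 := by field_simp
      _ ≤ 1 := by norm_num
      _ ≤ _ := hh1

end Pool.Agent.LGO.SN
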