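import Mathlib
import Pool.Agent.LGO.CM.Inv

/-!
# LGO/SN: heights of the roots of polynomials

`bd_root`: `y ∈ K`, `y ^ m + ∑ k < m, b k * y ^ k = 0`, `Bd K B (b k)`.  Denominator: let `n k ≤ e ^ B` be a denominator of
`b k`, `n = ∏ k < m, n k ≤ e ^ (m B)`; `(n y) ^ m + ∑ (b k n ^ (m - k)) (n y) ^ k = 0` with integral coefficients, so `n y`
is integral over `ℤ` (`isIntegral_trans`, or the subring of the algebraic integers).  House: for `σ : K → ℂ`,
`|σ y| ≤ 1 + ∑ |σ (b k)| ≤ 1 + m e ^ B ≤ (m + 1) e ^ B ≤ e ^ (m + B)`.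
`bd_rel`: as in `bd_ratio` (`LGO/CM/Inv.lean`): `K' = K ⊔ K₀`, `K₀` a number field with the coefficients of the
polynomials `P.coeff k` (`U.fld_fix`), `b k = (P.coeff k)(x) / (P.leadingCoeff)(x)`: `bd_val`, `Bd.inv`, `Bd.mul`;
then `bd_root` for `K'`, and back to `K` as at the end of `bd_ratio`.  `0 < P.natDegree`, because otherwise the relation says
`(P.leadingCoeff)(x) = 0`.
-/

namespace Pool.Agent.LGO.SN

open Polynomial Pool.Agent.Hhelper14.ZPL Pool.Agent.LGO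

theorem bd_root_int {m : ℕ} {c : ℕ → ℂ} {z : ℂ} (hc : ∀ k < m, IsIntegral ℤ (c k))
    (h : z ^ m + ∑ k ∈ Finset.range m, c k * z ^ k = 0) : IsIntegral ℤ z := by
  classical
  set O := integralClosure ℤ ℂ with hO
  set f : Fin m → O := fun k => ⟨c k, hc k k.2⟩ with hf
  set p : Polynomial O := ∑ k : Fin m, C (f k) * X ^ (k : ℕ) with hp
  have hdeg : p.degree < m := Polynomial.degree_sum_fin_lt f
  have hmon : (X ^ m + p).Monic := Polynomial.monic_X_pow_add hdeg
  have hev : Polynomial.aeval z (X ^ m + p) = 0 := by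
    rw [map_add, map_pow, aeval_X, hp, map_sum, ← h]
    congr 1
    rw [← Fin.sum_univ_eq_sum_range (fun k => c k * z ^ k) m]
    refine Finset.sum_congr rfl fun k _ => ?_
    rw [map_mul, map_pow, aeval_X, aeval_C]
    rfl
  have h2 : IsIntegral O z := ⟨_, hmon, hev⟩
  exact isIntegral_trans _ h2

theorem bd_root_norm {m : ℕ} {c : ℕ → ℂ} {z : ℂ} {A : ℝ} (hA : 1 ≤ A) (hc : ∀ k < m, ‖c k‖ ≤ A)
    (h : z ^ m + ∑ k ∈ Finset.range m, c k * z ^ k = 0) : ‖z‖ ≤ (m + 1) * A := by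
  have hm0 : (0 : ℝ) ≤ m := Nat.cast_nonneg m
  rcases le_or_gt ‖z‖ 1 with h1 | h1
  · nlinarith
  rcases m with _ | m
  · simp at h
  · have h2 : ‖z‖ ^ (m + 1) ≤ ∑ k ∈ Finset.range (m + 1), A * ‖z‖ ^ m := by
      have e : z ^ (m + 1) = -∑ k ∈ Finset.range (m + 1), c k * z ^ k := by linear_combination h
      calc ‖z‖ ^ (m + 1) = ‖z ^ (m + 1)‖ := (norm_pow _ _).symm
        _ = ‖∑ k ∈ Finset.range (m + 1), c k * z ^ k‖ := by rw [e, norm_neg]
        _ ≤ ∑ k ∈ Finset.range (m + 1), ‖c k * z ^ k‖ := norm_sum_le _ _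
        _ ≤ ∑ k ∈ Finset.range (m + 1), A * ‖z‖ ^ m := by
            refine Finset.sum_le_sum fun k hk => ?_
            rw [norm_mul, norm_pow]
            have hk' : k ≤ m := by
              have := Finset.mem_range.1 hk
              omega
            exact mul_le_mul (hc k (Finset.mem_range.1 hk)) (pow_le_pow_right₀ h1.le hk')
              (pow_nonneg (norm_nonneg _) _) (by linarith)
    rw [Finset.sum_const, Finset.card_range, nsmul_eq_mul, pow_succ] at h2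
    have hpos : 0 < ‖z‖ ^ m := pow_pos (by linarith) m
    have h3 : ‖z‖ ^ m * ‖z‖ ≤ ‖z‖ ^ m * (((m + 1 : ℕ) : ℝ) * A) := by
      calc ‖z‖ ^ m * ‖z‖ ≤ ((m + 1 : ℕ) : ℝ) * (A * ‖z‖ ^ m) := h2
        _ = ‖z‖ ^ m * (((m + 1 : ℕ) : ℝ) * A) := by ring
    have h4 := le_of_mul_le_mul_left h3 hpos
    linarith

theorem bd_root {K : IntermediateField ℚ ℂ} {B : ℝ} (hB : 0 ≤ B) {m : ℕ} {b : ℕ → ℂ} {y : ℂ} (hy : y ∈ K)
    (hb : ∀ k < m, Bd K B (b k)) (h : y ^ m + ∑ k ∈ Finset.range m, b k * y ^ k = 0) :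
    Bd K ((m + 1) * (1 + B)) y := by
  classical
  have hm0 : (0 : ℝ) ≤ m := Nat.cast_nonneg m
  have hmB := mul_nonneg hm0 hB
  have hden : ∀ k : ℕ, ∃ n : ℕ, 0 < n ∧ (n : ℝ) ≤ Real.exp B ∧ (k < m → IsIntegral ℤ ((n : ℂ) * b k)) := by
    intro k
    by_cases hk : k < m
    · obtain ⟨n, h1, h2, h3⟩ := (hb k hk).den
      exact ⟨n, h1, h2, fun _ => h3⟩
    · exact ⟨1, one_pos, by simpa using Real.one_le_exp hB, fun h => absurd h hk⟩
  choose n hn0 hnB hni using hden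
  set N : ℕ := ∏ k ∈ Finset.range m, n k with hN
  have hNpos : 0 < N := Finset.prod_pos fun k _ => hn0 k
  have hNle : (N : ℝ) ≤ Real.exp (m * B) := by
    rw [hN, Nat.cast_prod]
    calc ∏ k ∈ Finset.range m, (n k : ℝ) ≤ ∏ _k ∈ Finset.range m, Real.exp B :=
          Finset.prod_le_prod (fun k _ => Nat.cast_nonneg _) fun k _ => hnB k
      _ = Real.exp (m * B) := by
          rw [Finset.prod_const, Finset.card_range, ← Real.exp_nat_mul]
  have hle : Real.exp (m * B) ≤ Real.exp ((m + 1) * (1 + B)) := Real.exp_le_exp.2 (by nlinarith)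
  refine ⟨hy, ⟨N, hNpos, hNle.trans hle, ?_⟩, fun σ => ?_⟩
  · apply bd_root_int (m := m) (c := fun k => b k * (N : ℂ) ^ (m - k))
    · intro k hk
      have e1 : (N : ℂ) = (n k : ℂ) * ∏ i ∈ (Finset.range m).erase k, (n i : ℂ) := by
        rw [hN, Nat.cast_prod]
        exact (Finset.mul_prod_erase _ _ (Finset.mem_range.2 hk)).symm
      have e2 : (N : ℂ) ^ (m - k) = (N : ℂ) ^ (m - k - 1) * (N : ℂ) := by
        rw [← pow_succ]
        congr 1
        omega
      have e3 : b k * (N : ℂ) ^ (m - k) =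
          ((n k : ℂ) * b k) * ((N : ℂ) ^ (m - k - 1) * ∏ i ∈ (Finset.range m).erase k, (n i : ℂ)) := by
        rw [e2]
        conv_lhs => rw [e1]
        conv_rhs => rw [e1]
        ring
      show IsIntegral ℤ (b k * (N : ℂ) ^ (m - k))
      rw [e3]
      refine (hni k hk).mul ?_
      have e4 : (N : ℂ) ^ (m - k - 1) * ∏ i ∈ (Finset.range m).erase k, (n i : ℂ) =
          ((N ^ (m - k - 1) * ∏ i ∈ (Finset.range m).erase k, n i : ℕ) : ℂ) := by push_cast; rfl
      rw [e4]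
      exact isIntegral_algebraMap (R := ℤ) (A := ℂ) (x := ((N ^ (m - k - 1) * ∏ i ∈ (Finset.range m).erase k, n i : ℕ) : ℤ))
        |> fun h => by simpa using h
    · have e : ∑ k ∈ Finset.range m, b k * (N : ℂ) ^ (m - k) * ((N : ℂ) * y) ^ k =
          (N : ℂ) ^ m * ∑ k ∈ Finset.range m, b k * y ^ k := by
        rw [Finset.mul_sum]
        refine Finset.sum_congr rfl fun k hk => ?_
        have hk' := Finset.mem_range.1 hk
        have e1 : (N : ℂ) ^ m = (N : ℂ) ^ (m - k) * (N : ℂ) ^ k := by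
          rw [← pow_add]
          congr 1
          omega
        rw [e1, mul_pow]
        ring
      rw [e, mul_pow, ← mul_add, h, mul_zero]
  · set b' : ℕ → K := fun k => if hk : k < m then ⟨b k, (hb k hk).mem⟩ else 0 with hb'
    have hrelK : (⟨y, hy⟩ : K) ^ m + ∑ k ∈ Finset.range m, b' k * (⟨y, hy⟩ : K) ^ k = 0 := by
      apply (algebraMap K ℂ).injective
      rw [map_add, map_sum, map_pow, map_zero, ← h]
      congr 1
      refine Finset.sum_congr rfl fun k hk => ?_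
      rw [map_mul, map_pow, hb']
      simp only [Finset.mem_range.1 hk, dif_pos]
      rfl
    have hrel : (σ ⟨y, hy⟩) ^ m + ∑ k ∈ Finset.range m, σ (b' k) * (σ ⟨y, hy⟩) ^ k = 0 := by
      have := congrArg σ hrelK
      rw [map_add, map_sum, map_pow, map_zero] at this
      simpa only [map_mul, map_pow] using this
    have h1 : ‖σ ⟨y, hy⟩‖ ≤ (m + 1) * Real.exp B := by
      refine bd_root_norm (Real.one_le_exp hB) (fun k hk => ?_) hrel
      have := (hb k hk).house σ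
      simpa only [hb', hk, dif_pos] using this
    refine h1.trans ?_
    calc ((m : ℝ) + 1) * Real.exp B ≤ Real.exp m * Real.exp B :=
          mul_le_mul_of_nonneg_right (Real.add_one_le_exp _) (Real.exp_pos _).le
      _ = Real.exp (m + B) := (Real.exp_add _ _).symm
      _ ≤ Real.exp ((m + 1) * (1 + B)) := Real.exp_le_exp.2 (by nlinarith)

theorem bd_rel (P : Polynomial (Polynomial Qb)) : ∃ C : ℝ, 1 ≤ C ∧ ∀ (K : IntermediateField ℚ ℂ)
    [FiniteDimensional ℚ K] (B : ℝ) (x y : ℂ), 0 ≤ B → Bd K B x → y ∈ K →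
      (aeval x P.leadingCoeff : ℂ) ≠ 0 →
      ∑ k ∈ Finset.range (P.natDegree + 1), (aeval x (P.coeff k) : ℂ) * y ^ k = 0 →
      Bd K (C * Module.finrank ℚ K * (1 + B)) y := by
  classical
  choose c hc1 hc using fun k : ℕ => bd_val (P.coeff k)
  set m : ℕ := P.natDegree with hm
  obtain ⟨K₀, hK₀, hfix⟩ := U.fld_fix ((Finset.range (m + 1)).image fun k => P.coeff k)
  set d₀ : ℕ := Module.finrank ℚ K₀ with hd₀
  have hd₀1 : 1 ≤ d₀ := Module.finrank_pos
  have hd₀R : (1 : ℝ) ≤ d₀ := by exact_mod_cast hd₀1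
  have hm0 : (0 : ℝ) ≤ m := Nat.cast_nonneg m
  set Cs : ℝ := ∑ k ∈ Finset.range (m + 1), c k with hCs
  have hCsk : ∀ k ≤ m, c k ≤ Cs := fun k hk =>
    Finset.single_le_sum (f := c) (fun i _ => by have := hc1 i; linarith) (Finset.mem_range.2 (by omega))
  have hCs1 : 1 ≤ Cs := (hc1 m).trans (hCsk m le_rfl)
  refine ⟨(m + 1) * (1 + Cs + 2 * d₀ * Cs), ?_, ?_⟩
  · have h1 : 0 ≤ 2 * (d₀ : ℝ) * Cs := by positivity
    nlinarith
  intro K _ B x y hB hx hy hlc hrel
  set K' : IntermediateField ℚ ℂ := K ⊔ K₀ with hK'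
  have hfd : FiniteDimensional ℚ K' := IntermediateField.finiteDimensional_sup K K₀
  have hKK' : K ≤ K' := le_sup_left
  have hco : ∀ k ≤ m, ∀ i, (((P.coeff k).coeff i : Qb) : ℂ) ∈ K' := fun k hk i =>
    (le_sup_right : K₀ ≤ K') (hfix (P.coeff k) (Finset.mem_image.2 ⟨k, Finset.mem_range.2 (by omega), rfl⟩) i)
  have hfr : (Module.finrank ℚ K' : ℝ) ≤ d₀ * Module.finrank ℚ K := by
    have h1 := IntermediateField.finrank_sup_le K K₀
    have h2 : Module.finrank ℚ K' ≤ d₀ * Module.finrank ℚ K := by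
      rw [mul_comm]; exact h1
    exact_mod_cast h2
  set D : ℝ := ((Module.finrank ℚ K : ℕ) : ℝ) with hD
  have hD1 : 1 ≤ D := by
    have h0 : 1 ≤ Module.finrank ℚ K := Module.finrank_pos
    rw [hD]
    exact_mod_cast h0
  have hval : ∀ k ≤ m, Bd K' (Cs * (1 + B)) (aeval x (P.coeff k)) := fun k hk =>
    (hc k K' B x hB (hco k hk) (hx.le hKK')).mono (mul_le_mul_of_nonneg_right (hCsk k hk) (by linarith))
  have hinv : Bd K' (2 * (d₀ * D) * (Cs * (1 + B))) (aeval x P.leadingCoeff : ℂ)⁻¹ :=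
    (hval m le_rfl).inv hfr (by positivity) hlc
  have hbk : ∀ k < m, Bd K' ((Cs + 2 * d₀ * Cs) * D * (1 + B)) (aeval x (P.coeff k) * (aeval x P.leadingCoeff : ℂ)⁻¹) := by
    intro k hk
    refine ((hval k hk.le).mul hinv).mono ?_
    have e1 : Cs * (1 + B) ≤ Cs * D * (1 + B) := by
      have : Cs ≤ Cs * D := le_mul_of_one_le_right (by linarith) hD1
      exact mul_le_mul_of_nonneg_right this (by linarith)
    nlinarith
  have hroot : y ^ m + ∑ k ∈ Finset.range m, (aeval x (P.coeff k) * (aeval x P.leadingCoeff : ℂ)⁻¹) * y ^ k = 0 := by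
    rw [Finset.sum_range_succ] at hrel
    have e1 : (aeval x (P.coeff m) : ℂ) = aeval x P.leadingCoeff := rfl
    rw [e1] at hrel
    have e2 : ∑ k ∈ Finset.range m, (aeval x (P.coeff k) * (aeval x P.leadingCoeff : ℂ)⁻¹) * y ^ k =
        (aeval x P.leadingCoeff : ℂ)⁻¹ * ∑ k ∈ Finset.range m, (aeval x (P.coeff k) : ℂ) * y ^ k := by
      rw [Finset.mul_sum]
      refine Finset.sum_congr rfl fun k _ => ?_
      ring
    rw [e2]
    have e3 : ∑ k ∈ Finset.range m, (aeval x (P.coeff k) : ℂ) * y ^ k = -((aeval x P.leadingCoeff : ℂ) * y ^ m) := by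
      linear_combination hrel
    rw [e3, mul_neg, ← mul_assoc, inv_mul_cancel₀ hlc, one_mul]
    ring
  have hA0 : 0 ≤ (Cs + 2 * d₀ * Cs) * D * (1 + B) := by positivity
  have b5 := bd_root hA0 (hKK' hy) hbk hroot
  have b6 : Bd K' ((m + 1) * (1 + Cs + 2 * d₀ * Cs) * D * (1 + B)) y := by
    refine b5.mono ?_
    have e1 : 1 ≤ D * (1 + B) := by nlinarith
    have e2 : 1 + (Cs + 2 * d₀ * Cs) * D * (1 + B) ≤ (1 + Cs + 2 * d₀ * Cs) * D * (1 + B) := by
      nlinarith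
    calc ((m : ℝ) + 1) * (1 + (Cs + 2 * d₀ * Cs) * D * (1 + B)) ≤
          (m + 1) * ((1 + Cs + 2 * d₀ * Cs) * D * (1 + B)) := mul_le_mul_of_nonneg_left e2 (by linarith)
      _ = _ := by ring
  refine ⟨hy, b6.den, fun σ => ?_⟩
  obtain ⟨s, hs⟩ := exists_aut K σ
  have h6 := b6.aut s
  rw [← hs ⟨y, hy⟩]
  exact h6

end Pool.Agent.LGO.SN
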