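import Mathlib
import Pool.Agent.LGO.SN.Main
import Pool.Agent.LGO.CK.Orbit
import Pool.Agent.LGO.CK.Disc
import Pool.Agent.LGO.H.BdC

/-!
# LGO/SN: discriminant and height of a singular modulus in terms of its degree

`card_le`: by `orbit` (`CK/Orbit.lean`) every element of `cls D` is `σ x`, `x = j(τ)`, so it is a root of
`minpoly ℚ x`; the number of the roots is at most `natDegree (minpoly ℚ x) ≤ finrank ℚ K`
(`minpoly.natDegree_le`; `x` is algebraic because it is in `K`).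
`disc_le`: `D = (4 a c - b ^ 2).toNat`, `D % 4 = 0` or `3` because `-D = b ^ 2 - 4 a c` and `b ^ 2` is `0` or `1` modulo `4`;
`cls_ge`: `c D ^ (1/4) ≤ #(cls D) ≤ finrank ℚ K`.
`bd_cm`: `x = j(τ)` with a form of discriminant `-D` (`exists_form`; `IsCMVal x`: see `isCMVal_jInv`, `exists_red` for a
reduced `τ` with `j(τ) = x`), `D ≤ (C M) ^ 4`.  For every automorphism `s`: `conj_form` (`CK/Disc.lean`): `s x = j(τ')`, `τ'` has
a form of discriminant at least `-(D + 16)`; replace `τ'` by a reduced point (`ModularGroup.exists_smul_mem_fd`,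
`HasForm.smul`, `jInv_smul`, as in `cm_size`).  `cm_size`: `‖s x‖ ≤ C e ^ (π √(D + 16)) ≤ e ^ (M ^ C')`; `x` is integral
(`HasForm.integral`), so `Bd K (M ^ C') x` by `bd_of_aut` (`H/BdC.lean`) with denominator `1`.
-/

namespace Pool.Agent.LGO.SN

open UpperHalfPlane Pool.Agent.Hhelper14.ZP Pool.Agent.LGO.CK MatrixGroups

theorem card_le {D : ℕ} {τ : ℍ} {a b c : ℤ} (h : HasForm τ a b c) (hd : b ^ 2 - 4 * a * c = -(D : ℤ))
    (K : IntermediateField ℚ ℂ) [FiniteDimensional ℚ K] (hx : jInv τ ∈ K) :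
    (cls D).ncard ≤ Module.finrank ℚ K := by
  have hint : IsIntegral ℚ (jInv τ) := by
    have h1 : IsIntegral ℚ (⟨jInv τ, hx⟩ : K) := IsIntegral.of_finite ℚ _
    exact h1.map K.val
  have hne : minpoly ℚ (jInv τ) ≠ 0 := minpoly.ne_zero hint
  have hsub : cls D ⊆ ((minpoly ℚ (jInv τ)).rootSet ℂ : Set ℂ) := by
    rintro y ⟨τ', a', b', c', h', hd', rfl⟩
    obtain ⟨σ, hσ⟩ := orbit h h' (by rw [hd, hd'])
    rw [Polynomial.mem_rootSet]
    refine ⟨hne, ?_⟩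
    have h1 := Polynomial.aeval_algHom_apply (RingHom.toRatAlgHom (σ : ℂ →+* ℂ)) (jInv τ)
      (minpoly ℚ (jInv τ))
    rw [minpoly.aeval, map_zero] at h1
    have h2 : (RingHom.toRatAlgHom (σ : ℂ →+* ℂ)) (jInv τ) = jInv τ' := hσ
    rwa [h2] at h1
  calc (cls D).ncard ≤ ((minpoly ℚ (jInv τ)).rootSet ℂ : Set ℂ).ncard :=
        Set.ncard_le_ncard hsub ((minpoly ℚ (jInv τ)).rootSet_finite ℂ)
    _ ≤ (minpoly ℚ (jInv τ)).natDegree := by
        rw [Polynomial.rootSet, Set.ncard_coe_finset]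
        refine (Multiset.toFinset_card_le _).trans ?_
        refine (Polynomial.card_roots' _).trans ?_
        exact Polynomial.natDegree_map_le
    _ = (minpoly ℚ (⟨jInv τ, hx⟩ : K)).natDegree := by
        rw [← minpoly.algebraMap_eq (algebraMap K ℂ).injective (⟨jInv τ, hx⟩ : K)]
        rfl
    _ ≤ Module.finrank ℚ K := minpoly.natDegree_le _

theorem disc_le (hS : Siegel) : ∃ C : ℝ, 0 < C ∧ ∀ (K : IntermediateField ℚ ℂ) [FiniteDimensional ℚ K] (τ : ℍ)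
    (a b c : ℤ), HasForm τ a b c → jInv τ ∈ K → (4 * a * c - b ^ 2 : ℝ) ≤ (C * Module.finrank ℚ K) ^ 4 := by
  obtain ⟨c₀, hc₀, hcls⟩ := cls_ge hS
  refine ⟨c₀⁻¹, inv_pos.2 hc₀, fun K _ τ a b c h hx => ?_⟩
  have hneg := h.disc_neg
  obtain ⟨D, hD⟩ : ∃ D : ℕ, (D : ℤ) = 4 * a * c - b ^ 2 :=
    ⟨(4 * a * c - b ^ 2).toNat, Int.toNat_of_nonneg (by omega)⟩
  have hD0 : 0 < D := by omega
  have hmod : D % 4 = 0 ∨ D % 4 = 3 := by
    rcases Int.even_or_odd' b with ⟨k, hk | hk⟩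
    · left
      have h1 : (D : ℤ) = 4 * (a * c - k ^ 2) := by
        rw [hD, hk]
        ring
      omega
    · right
      have h1 : (D : ℤ) = 4 * (a * c - k ^ 2 - k - 1) + 3 := by
        rw [hD, hk]
        ring
      omega
  have h1 := hcls D hD0 hmod
  have h2 : ((cls D).ncard : ℝ) ≤ Module.finrank ℚ K := by
    exact_mod_cast card_le h (by rw [hD]; ring) K hx
  have h3 : (D : ℝ) ^ (1 / 4 : ℝ) ≤ c₀⁻¹ * Module.finrank ℚ K := by
    rw [inv_mul_eq_div, le_div_iff₀ hc₀, mul_comm]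
    exact h1.trans h2
  have h4 : ((D : ℝ) ^ (1 / 4 : ℝ)) ^ 4 = D := by
    rw [← Real.rpow_natCast, ← Real.rpow_mul (Nat.cast_nonneg D)]
    norm_num
  have h5 : (4 * a * c - b ^ 2 : ℝ) = D := by
    have : ((D : ℤ) : ℝ) = ((4 * a * c - b ^ 2 : ℤ) : ℝ) := by rw [hD]
    push_cast at this
    exact this.symm
  rw [h5]
  calc (D : ℝ) = ((D : ℝ) ^ (1 / 4 : ℝ)) ^ 4 := h4.symm
    _ ≤ (c₀⁻¹ * Module.finrank ℚ K) ^ 4 :=
        pow_le_pow_left₀ (Real.rpow_nonneg (Nat.cast_nonneg D) _) h3 4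

private theorem Use_reduce {τ : ℍ} {a b c : ℤ} (h : HasForm τ a b c) : ∃ (τ' : ℍ) (a' b' c' : ℤ),
    Red (τ' : ℂ) ∧ jInv τ' = jInv τ ∧ HasForm τ' a' b' c' ∧
      (4 * a' * c' - b' ^ 2 : ℝ) = (4 * a * c - b ^ 2 : ℝ) := by
  obtain ⟨γ, hγ⟩ := ModularGroup.exists_smul_mem_fd τ
  have hred : Red ((γ • τ : ℍ) : ℂ) := by
    refine ⟨(γ • τ).im_pos, hγ.2, ?_⟩
    have h1 := hγ.1
    rw [Complex.normSq_eq_norm_sq] at h1
    have h2 := norm_nonneg ((γ • τ : ℍ) : ℂ)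
    nlinarith
  obtain ⟨a', b', c', h', hd⟩ := h.smul γ
  refine ⟨γ • τ, a', b', c', hred, jInv_smul γ τ, h', ?_⟩
  have h4 : ((b' ^ 2 - 4 * a' * c' : ℤ) : ℝ) = ((b ^ 2 - 4 * a * c : ℤ) : ℝ) := by rw [hd]
  push_cast at h4
  linarith

private theorem Use_pow (C : ℝ) : ∃ k : ℕ, ∀ M : ℝ, 2 ≤ M → C ≤ M ^ k := by
  obtain ⟨k, hk⟩ := pow_unbounded_of_one_lt C (one_lt_two)
  exact ⟨k, fun M hM => hk.le.trans (pow_le_pow_left₀ (by norm_num) hM k)⟩

theorem bd_cm (hS : Siegel) : ∃ C : ℕ, 0 < C ∧ ∀ (K : IntermediateField ℚ ℂ) [FiniteDimensional ℚ K] (M : ℝ) (x : ℂ),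
    2 ≤ M → (Module.finrank ℚ K : ℝ) ≤ M → x ∈ K → IsCMVal x → Bd K (M ^ C) x ∧
    ∀ s : ℂ ≃+* ℂ, ∃ (τ : ℍ) (a b c : ℤ), Red (τ : ℂ) ∧ jInv τ = s x ∧ HasForm τ a b c ∧
      (4 * a * c - b ^ 2 : ℝ) ≤ M ^ C := by
  obtain ⟨C₁, hC₁, hdisc⟩ := disc_le hS
  obtain ⟨C₂, hC₂, hsize⟩ := cm_size
  obtain ⟨m, hm⟩ := Use_pow (C₁ ^ 4)
  obtain ⟨k, hk⟩ := Use_pow (Real.log C₂)
  refine ⟨m + k + 8, by omega, fun K _ M x hM hK hx hcm => ?_⟩
  have hM1 : 1 ≤ M := by linarith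
  have hM0 : 0 ≤ M := by linarith
  obtain ⟨τ₀, hτ₀, rfl⟩ := hcm
  obtain ⟨a₀, b₀, c₀, h₀⟩ := exists_form hτ₀
  -- the discriminant
  have hD₀ : (4 * a₀ * c₀ - b₀ ^ 2 : ℝ) ≤ M ^ (m + 4) := by
    refine (hdisc K τ₀ a₀ b₀ c₀ h₀ hx).trans ?_
    have h1 : C₁ * (Module.finrank ℚ K : ℝ) ≤ C₁ * M := mul_le_mul_of_nonneg_left hK hC₁.le
    refine (pow_le_pow_left₀ (by positivity) h1 4).trans ?_
    rw [mul_pow, pow_add]
    exact mul_le_mul_of_nonneg_right (hm M hM) (by positivity)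
  have h16 : (16 : ℝ) ≤ M ^ (m + 4) := by
    have h1 : (2 : ℝ) ^ 4 ≤ M ^ 4 := pow_le_pow_left₀ (by norm_num) hM 4
    have h2 : M ^ 4 ≤ M ^ (m + 4) := pow_le_pow_right₀ hM1 (by omega)
    linarith
  have hstep : ∀ j : ℕ, M ^ j + M ^ j ≤ M ^ (j + 1) := by
    intro j
    rw [pow_succ]
    have := pow_nonneg hM0 j
    nlinarith
  have hconj : ∀ s : ℂ ≃+* ℂ, ∃ (τ : ℍ) (a b c : ℤ), HasForm τ a b c ∧ s (jInv τ₀) = jInv τ ∧
      (4 * a * c - b ^ 2 : ℝ) ≤ M ^ (m + 5) := by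
    intro s
    obtain ⟨τ', a', b', c', h', hs, hd⟩ := conj_form h₀ s
    refine ⟨τ', a', b', c', h', hs, ?_⟩
    have h1 : ((4 * a' * c' - b' ^ 2 : ℤ) : ℝ) ≤ ((4 * a₀ * c₀ - b₀ ^ 2 + 16 : ℤ) : ℝ) := by
      exact_mod_cast hd
    push_cast at h1
    have h2 := hstep (m + 4)
    linarith
  constructor
  · refine bd_of_aut hx h₀.integral (by positivity) fun s => ?_
    obtain ⟨τ, a, b, c, h, hs, hd⟩ := hconj s
    rw [hs]
    refine (hsize τ a b c h).trans ?_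
    have h1 : √(4 * a * c - b ^ 2 : ℝ) ≤ M ^ (m + 5) := by
      have h2 : (1 : ℝ) ≤ M ^ (m + 5) := one_le_pow₀ hM1
      rw [Real.sqrt_le_left (by positivity)]
      nlinarith
    have h2 : Real.pi * √(4 * a * c - b ^ 2 : ℝ) ≤ M ^ (m + 7) := by
      have h3 : Real.pi ≤ M ^ 2 := by
        have := Real.pi_le_four
        nlinarith
      have h4 : M ^ (m + 7) = M ^ 2 * M ^ (m + 5) := by
        rw [← pow_add]
        congr 1
        omega
      rw [h4]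
      exact mul_le_mul h3 h1 (Real.sqrt_nonneg _) (by positivity)
    have h3 : C₂ ≤ Real.exp (M ^ k) := by
      rw [← Real.log_le_iff_le_exp hC₂]
      exact hk M hM
    calc C₂ * Real.exp (Real.pi * √(4 * a * c - b ^ 2 : ℝ)) ≤ Real.exp (M ^ k) * Real.exp (M ^ (m + 7)) :=
          mul_le_mul h3 (Real.exp_le_exp.2 h2) (Real.exp_pos _).le (Real.exp_pos _).le
      _ = Real.exp (M ^ k + M ^ (m + 7)) := (Real.exp_add _ _).symm
      _ ≤ Real.exp (M ^ (m + k + 8)) := by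
          apply Real.exp_le_exp.2
          have h4 : M ^ k ≤ M ^ (m + k + 7) := pow_le_pow_right₀ hM1 (by omega)
          have h5 : M ^ (m + 7) ≤ M ^ (m + k + 7) := pow_le_pow_right₀ hM1 (by omega)
          have h6 := hstep (m + k + 7)
          have h7 : m + k + 7 + 1 = m + k + 8 := by omega
          rw [h7] at h6
          linarith
  · intro s
    obtain ⟨τ, a, b, c, h, hs, hd⟩ := hconj s
    obtain ⟨τ', a', b', c', hred, hj, h', hd'⟩ := Use_reduce h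
    refine ⟨τ', a', b', c', hred, by rw [hj, hs], h', ?_⟩
    rw [hd']
    exact hd.trans (pow_le_pow_right₀ hM1 (by omega))

end Pool.Agent.LGO.SN
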